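import Pool.Agent.H24.LR.Gap

/-!
# LW ArchB

Two integral points with `|x|, |x₀| ≥ H e^γ`, `x ≠ x₀` (any signs of `y`): their difference is near `O`. The proof is that of `Pool.Agent.H24.LR.gap` (LR/Gap.lean), where only
`|a| ≤ x²/1000`, `|b| ≤ x³/1000` was used: here `|a| ≤ H² ≤ x² e^{-2γ}`, `|b| ≤ H³ ≤ x³ e^{-3γ}`, `γ ≥ K`. It gives `x(T) ≥ min(x, x₀)/32 ≥ He^γ/32 ≥ H e^{γ/2}`.
-/

namespace Pool.Agent.H24.LW

open Pool.Agent.H24.LP Pool.Agent.H24.LQ Pool.Agent.H24.LR Finset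

private lemma exp_seven : (2 : ℝ) ^ 10 ≤ Real.exp 7 := by
  have h1 : (2.7182818283 : ℝ) < Real.exp 1 := Real.exp_one_gt_d9
  have h2 : Real.exp 7 = Real.exp 1 ^ 7 := by
    rw [← Real.exp_nat_mul]
    norm_num
  rw [h2]
  have h3 : (2.7182818283 : ℝ) ^ 7 ≤ Real.exp 1 ^ 7 := pow_le_pow_left₀ (by norm_num) h1.le 7
  refine le_trans ?_ h3
  norm_num

/-- The size of `a`, `b` against a large `x`. -/
private lemma B_size {a b : ℤ} {X γ : ℝ} (hγ : 7 ≤ γ) (hX : 0 < X) (h : L a b + γ ≤ Real.log X) :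
    2 ^ 11 ≤ X ∧ |(a : ℝ)| * 2 ^ 20 ≤ X ^ 2 ∧ |(b : ℝ)| * 2 ^ 30 ≤ X ^ 3 := by
  set E : ℝ := Real.exp (L a b) with hE
  have hE2 : 2 ≤ E := by
    have := Real.exp_le_exp.mpr (log_two_le_L a b)
    rwa [Real.exp_log (by norm_num)] at this
  have hE0 : 0 ≤ E := by linarith
  have h7 : (2 : ℝ) ^ 10 ≤ Real.exp γ := exp_seven.trans (Real.exp_le_exp.mpr hγ)
  have h1 : E * 2 ^ 10 ≤ X := by
    have h2 : E * Real.exp γ ≤ X := by
      rw [hE, ← Real.exp_add]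
      have := Real.exp_le_exp.mpr h
      rwa [Real.exp_log hX] at this
    exact le_trans (mul_le_mul_of_nonneg_left h7 hE0) h2
  have ha : |(a : ℝ)| ≤ E ^ 2 := by
    refine le_trans (abs_a_le a b) (le_of_eq ?_)
    rw [hE, ← Real.exp_nat_mul]; norm_num
  have hb : |(b : ℝ)| ≤ E ^ 3 := by
    refine le_trans (abs_b_le a b) (le_of_eq ?_)
    rw [hE, ← Real.exp_nat_mul]; norm_num
  refine ⟨?_, ?_, ?_⟩
  · refine le_trans ?_ h1
    have : (2 : ℝ) * 2 ^ 10 ≤ E * 2 ^ 10 := mul_le_mul_of_nonneg_right hE2 (by norm_num)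
    refine le_trans (le_of_eq (by norm_num)) this
  · calc |(a : ℝ)| * 2 ^ 20 ≤ E ^ 2 * 2 ^ 20 := mul_le_mul_of_nonneg_right ha (by positivity)
      _ = (E * 2 ^ 10) ^ 2 := by ring
      _ ≤ X ^ 2 := pow_le_pow_left₀ (by positivity) h1 2
  · calc |(b : ℝ)| * 2 ^ 30 ≤ E ^ 3 * 2 ^ 30 := mul_le_mul_of_nonneg_right hb (by positivity)
      _ = (E * 2 ^ 10) ^ 3 := by ring
      _ ≤ X ^ 3 := pow_le_pow_left₀ (by positivity) h1 3

private lemma B_pos {a b : ℤ} {z : ℤ × ℤ} (hz : z ∈ integralPoints a b) {γ : ℝ} (hγ : 7 ≤ γ)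
    (h : L a b + γ ≤ Real.log |(z.1 : ℝ)|) :
    (2 : ℝ) ^ 11 ≤ (z.1 : ℝ) ∧ |(a : ℝ)| * 2 ^ 20 ≤ (z.1 : ℝ) ^ 2 ∧
      |(b : ℝ)| * 2 ^ 30 ≤ (z.1 : ℝ) ^ 3 ∧ (z.2 : ℝ) ^ 2 ≤ 2 * (z.1 : ℝ) ^ 3 := by
  obtain ⟨x, y⟩ := z
  have he : ((y : ℤ) : ℝ) ^ 2 = (x : ℝ) ^ 3 + a * x + b := by
    have h1 : y ^ 2 = x ^ 3 + a * x + b := hz
    exact_mod_cast h1
  simp only at h ⊢
  have hx0 : 0 < |(x : ℝ)| := by
    rcases (abs_nonneg (x : ℝ)).eq_or_lt with h0 | h0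
    · exfalso
      rw [← h0, Real.log_zero] at h
      have := log_two_le_L a b
      have := Real.log_pos (by norm_num : (1 : ℝ) < 2)
      linarith
    · exact h0
  obtain ⟨h20, ha, hb⟩ := B_size hγ hx0 h
  have hab : |(a : ℝ) * x + b| ≤ |(x : ℝ)| ^ 3 / 2 := by
    refine le_trans (abs_add_le _ _) ?_
    rw [abs_mul]
    have h1 : |(a : ℝ)| * |(x : ℝ)| * 2 ^ 20 ≤ |(x : ℝ)| ^ 3 := by
      have := mul_le_mul_of_nonneg_right ha hx0.le
      calc |(a : ℝ)| * |(x : ℝ)| * 2 ^ 20 = |(a : ℝ)| * 2 ^ 20 * |(x : ℝ)| := by ring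
        _ ≤ |(x : ℝ)| ^ 2 * |(x : ℝ)| := this
        _ = _ := by ring
    have h2 : 0 ≤ |(x : ℝ)| ^ 3 := by positivity
    have h3 : 0 ≤ |(a : ℝ)| * |(x : ℝ)| := by positivity
    have h4 : 0 ≤ |(b : ℝ)| := abs_nonneg _
    linarith
  obtain ⟨hab1, hab2⟩ := abs_le.mp hab
  have hxpos : 0 < (x : ℝ) := by
    by_contra hn
    push Not at hn
    have e : |(x : ℝ)| ^ 3 = -(x : ℝ) ^ 3 := by
      rw [abs_of_nonpos hn]; ring
    have h3 : 0 < |(x : ℝ)| ^ 3 := by positivity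
    have h4 := sq_nonneg (y : ℝ)
    rw [e] at hab2 h3
    linarith
  rw [abs_of_pos hxpos] at hab1 hab2 h20 ha hb
  refine ⟨h20, ha, hb, ?_⟩
  have : 0 < (x : ℝ) ^ 3 := by positivity
  linarith

/-- `C ≥ (xx')²/2`. -/
private lemma B_C {a b x x' : ℝ} (hx0 : 0 < x) (hxx : x < x')
    (ha : |a| * 2 ^ 20 ≤ x ^ 2) (hb : |b| * 2 ^ 30 ≤ x ^ 3) :
    (x * x') ^ 2 / 2 ≤ (x * x' - a) ^ 2 - 4 * b * (x + x') := by
  have hx'0 : 0 < x' := lt_trans hx0 hxx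
  have hp : 0 < x * x' := mul_pos hx0 hx'0
  have haa := abs_nonneg a
  have hbb := abs_nonneg b
  have ha2 := le_abs_self a
  have hb2 := le_abs_self b
  have e1 : |a| ≤ x * x' / 8 := by
    have : x ^ 2 ≤ x * x' := by
      rw [sq]
      exact mul_le_mul_of_nonneg_left hxx.le hx0.le
    linarith
  have e4 : 4 * b * (x + x') ≤ (x * x') * (x * x') / 8 := by
    have f1 : 4 * b * (x + x') ≤ 4 * |b| * (2 * x') :=
      mul_le_mul (by linarith) (by linarith) (by linarith) (by positivity)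
    have f2 : (|b| * 2 ^ 30) * x' ≤ x ^ 3 * x' := mul_le_mul_of_nonneg_right hb hx'0.le
    have f3 : x ^ 3 * x' ≤ (x * x') * (x * x') := by
      have : x ^ 2 * x' * x ≤ x ^ 2 * x' * x' := mul_le_mul_of_nonneg_left hxx.le (by positivity)
      calc x ^ 3 * x' = x ^ 2 * x' * x := by ring
        _ ≤ _ := this
        _ = _ := by ring
    have f5 : 0 ≤ |b| * x' := mul_nonneg hbb hx'0.le
    have f6 : 4 * |b| * (2 * x') = 8 * (|b| * x') := by ring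
    have f7 : (|b| * 2 ^ 30) * x' = 2 ^ 30 * (|b| * x') := by ring
    have f8 : 0 ≤ (x * x') * (x * x') := by positivity
    linarith
  generalize x * x' = P at *
  have e3 : (P * (7 / 8)) ^ 2 ≤ (P - a) ^ 2 :=
    pow_le_pow_left₀ (by positivity) (by linarith) 2
  have g1 : (P * (7 / 8)) ^ 2 = 49 / 64 * (P * P) := by ring
  have g2 : P ^ 2 = P * P := by ring
  have g3 : 0 ≤ P * P := by positivity
  rw [g2]
  linarith

private lemma B_yy {x x' y y' : ℝ} (hx0 : 0 < x) (hxx : x < x')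
    (hy : y ^ 2 ≤ 2 * x ^ 3) (hy' : y' ^ 2 ≤ 2 * x' ^ 3) : |y * y'| ≤ 2 * (x * x' * x') := by
  have hx'0 : 0 < x' := lt_trans hx0 hxx
  apply abs_le_of_sq_le_sq _ (by positivity)
  have e1 : (y * y') ^ 2 ≤ (2 * x ^ 3) * (2 * x' ^ 3) := by
    rw [mul_pow]
    exact mul_le_mul hy hy' (sq_nonneg _) (by positivity)
  refine le_trans e1 ?_
  have e2 : (2 * (x * x' * x')) ^ 2 - (2 * x ^ 3) * (2 * x' ^ 3)
      = 4 * (x ^ 2 * x' ^ 3) * (x' - x) := by ring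
  have e3 : 0 ≤ 4 * (x ^ 2 * x' ^ 3) * (x' - x) :=
    mul_nonneg (by positivity) (by linarith)
  linarith

/-- The small term. -/
private lemma B_T {a b x x' : ℝ} (hx0 : 0 < x) (hxx : x < x')
    (ha : |a| * 2 ^ 20 ≤ x ^ 2) (hb : |b| * 2 ^ 30 ≤ x ^ 3) :
    |a * (x + x') + 2 * b| ≤ x * x' * x' / 4 := by
  have hx'0 : 0 < x' := lt_trans hx0 hxx
  have haa := abs_nonneg a
  have hbb := abs_nonneg b
  have hq : x ^ 2 * x' ≤ x * x' * x' := by
    have : x * x' * x ≤ x * x' * x' := mul_le_mul_of_nonneg_left hxx.le (by positivity)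
    calc x ^ 2 * x' = x * x' * x := by ring
      _ ≤ _ := this
  have hc : x ^ 3 ≤ x ^ 2 * x' := by
    have : x ^ 2 * x ≤ x ^ 2 * x' := mul_le_mul_of_nonneg_left hxx.le (by positivity)
    calc x ^ 3 = x ^ 2 * x := by ring
      _ ≤ _ := this
  have hA : |a| * (x + x') ≤ x * x' * x' / 8 := by
    have e1 : |a| * (x + x') ≤ |a| * (2 * x') :=
      mul_le_mul_of_nonneg_left (by linarith) haa
    have e2 : (|a| * 2 ^ 20) * x' ≤ x ^ 2 * x' := mul_le_mul_of_nonneg_right ha hx'0.le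
    have e3 : |a| * (2 * x') = 2 * (|a| * x') := by ring
    have e4 : (|a| * 2 ^ 20) * x' = 2 ^ 20 * (|a| * x') := by ring
    have e5 : 0 ≤ |a| * x' := mul_nonneg haa hx'0.le
    linarith
  refine le_trans (abs_add_le _ _) ?_
  rw [abs_mul, abs_mul, abs_of_pos (by linarith : 0 < x + x'),
    abs_of_pos (by norm_num : (0 : ℝ) < 2)]
  linarith

/-- The lower bound for `x(P - P')`. -/
private lemma B_core {a b x x' y y' u : ℝ} (hx0 : 0 < x) (hxx : x < x')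
    (ha : |a| * 2 ^ 20 ≤ x ^ 2) (hb : |b| * 2 ^ 30 ≤ x ^ 3) (h : y ^ 2 = x ^ 3 + a * x + b)
    (h' : y' ^ 2 = x' ^ 3 + a * x' + b) (hy : y ^ 2 ≤ 2 * x ^ 3) (hy' : y' ^ 2 ≤ 2 * x' ^ 3)
    (hu : (x - x') ^ 2 * u = (y + y') ^ 2 - (x + x') * (x - x') ^ 2) : x / 32 ≤ u := by
  have hx'0 : 0 < x' := lt_trans hx0 hxx
  have hp : 0 < x * x' := mul_pos hx0 hx'0
  have hdd : 0 < (x - x') ^ 2 := by
    have : x - x' ≠ 0 := by linarith
    positivity
  have hd' : (x - x') ^ 2 ≤ x' ^ 2 := by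
    have e : x' ^ 2 - (x - x') ^ 2 = x * (2 * x' - x) := by ring
    have e' : 0 ≤ x * (2 * x' - x) := mul_nonneg hx0.le (by linarith)
    linarith
  obtain ⟨hT1, hT2⟩ := abs_le.mp (B_T hx0 hxx ha hb)
  have hC := B_C hx0 hxx ha hb
  have hyy := B_yy hx0 hxx hy hy'
  have e5 : 0 < x * x' * x' := mul_pos hp hx'0
  have hN : (x - x') ^ 2 * u = x * x' * (x + x') + (a * (x + x') + 2 * b) + 2 * (y * y') := by
    rw [hu]
    linear_combination h + h'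
  have hplus : x * x' * (x + x') = x * (x * x') + x * x' * x' := by ring
  have hxp : 0 < x * (x * x') := mul_pos hx0 hp
  by_contra hcon
  push Not at hcon
  rcases le_or_gt 0 (y * y') with hs | hs
  · have e1 : (x - x') ^ 2 * u < (x - x') ^ 2 * (x / 32) := mul_lt_mul_of_pos_left hcon hdd
    have e2 : (x - x') ^ 2 * (x / 32) ≤ x' ^ 2 * (x / 32) :=
      mul_le_mul_of_nonneg_right hd' (by linarith)
    have e4 : x' ^ 2 * (x / 32) = x * x' * x' / 32 := by ring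
    linarith
  · have hid2 : u * (x * x' * (x + x') + (a * (x + x') + 2 * b) - 2 * (y * y'))
        = (x * x' - a) ^ 2 - 4 * b * (x + x') := by
      apply mul_left_cancel₀ hdd.ne'
      linear_combination (x * x' * (x + x') + (a * (x + x') + 2 * b) - 2 * (y * y')) * hN
        + (-4 * y' ^ 2) * h - 4 * (x ^ 3 + a * x + b) * h'
    rw [← hid2] at hC
    have hy1 := (abs_le.mp hyy).1
    have hNp0 : 0 < x * x' * (x + x') + (a * (x + x') + 2 * b) - 2 * (y * y') := by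
      linarith
    have hNp16 : x * x' * (x + x') + (a * (x + x') + 2 * b) - 2 * (y * y')
        ≤ 16 * (x * x' * x') := by
      have e3 : x * (x * x') ≤ x' * (x * x') := mul_le_mul_of_nonneg_right hxx.le hp.le
      have e4 : x' * (x * x') = x * x' * x' := by ring
      linarith
    have e1 := mul_lt_mul_of_pos_right hcon hNp0
    have e2 := mul_le_mul_of_nonneg_left hNp16 (by linarith : 0 ≤ x / 32)
    have e3 : x / 32 * (16 * (x * x' * x')) = (x * x') ^ 2 / 2 := by ring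
    rw [e3] at e2
    exact absurd (lt_of_le_of_lt hC (lt_of_lt_of_le e1 e2)) (lt_irrefl _)

/-- `HE e^γ / 32 ≥ H e^{γ/2}`. -/
private lemma B_exp {a b : ℤ} {X γ : ℝ} (hγ : 7 ≤ γ) (hX : 0 < X)
    (h : L a b + γ ≤ Real.log X) : Real.exp (L a b + γ / 2) ≤ X / 32 := by
  have h1 : Real.exp (L a b + γ) ≤ X := by
    have := Real.exp_le_exp.mpr h
    rwa [Real.exp_log hX] at this
  have h2 : Real.exp (L a b + γ) = Real.exp (L a b + γ / 2) * Real.exp (γ / 2) := by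
    rw [← Real.exp_add]
    congr 1
    ring
  have h3 : (32 : ℝ) ≤ Real.exp (γ / 2) := by
    have h4 : Real.exp (7 / 2) ≤ Real.exp (γ / 2) := Real.exp_le_exp.mpr (by linarith)
    refine le_trans ?_ h4
    have h5 : Real.exp (7 / 2) * Real.exp (7 / 2) = Real.exp 7 := by
      rw [← Real.exp_add]
      congr 1
      norm_num
    have h6 := exp_seven
    by_contra hn
    push Not at hn
    have h7 : Real.exp (7 / 2) * Real.exp (7 / 2) < 32 * 32 :=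
      mul_lt_mul'' hn hn (Real.exp_pos _).le (Real.exp_pos _).le
    rw [h5] at h7
    norm_num at h6 h7
    linarith
  have h4 : Real.exp (L a b + γ / 2) * 32 ≤ X := by
    rw [h2] at h1
    exact le_trans (mul_le_mul_of_nonneg_left h3 (Real.exp_pos _).le) h1
  linarith

private lemma B_some {a b : ℤ} {x y : ℚ} (h : (curve a b).Nonsingular x y) {Y : ℝ}
    (hY : 0 < Y) (hx : Y ≤ (x : ℝ)) :
    Y * |(repZ (.some x y h : (curve a b).Point) : ℝ)| ≤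
      |(repX (.some x y h : (curve a b).Point) : ℝ)| := by
  have e : (x : ℝ) * (x.den : ℝ) = (x.num : ℝ) := by exact_mod_cast Rat.mul_den_eq_num x
  have hd : (0 : ℝ) < (x.den : ℝ) := by exact_mod_cast x.pos
  have hx0 : 0 < (x : ℝ) := lt_of_lt_of_le hY hx
  have h1 : |(repX (.some x y h : (curve a b).Point) : ℝ)| = (x : ℝ) * (x.den : ℝ) := by
    change |(x.num : ℝ)| = _
    rw [← e, abs_mul, abs_of_pos hx0, abs_of_pos hd]
  have h2 : |(repZ (.some x y h : (curve a b).Point) : ℝ)| = (x.den : ℝ) := by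
    change |(((x.den : ℤ)) : ℝ)| = _
    rw [Int.cast_natCast, abs_of_pos hd]
  rw [h1, h2]
  exact mul_le_mul_of_nonneg_right hx hd.le

open Classical in
theorem arch_large : ∃ K : ℝ, 1 ≤ K ∧ ∀ (a b : ℤ) (hD : D a b ≠ 0) (γ : ℝ), K ≤ γ →
    ∀ z ∈ integralPoints a b, ∀ z₀ ∈ integralPoints a b, z.1 ≠ z₀.1 →
    L a b + γ ≤ Real.log |(z.1 : ℝ)| → L a b + γ ≤ Real.log |(z₀.1 : ℝ)| →
    Real.exp (L a b + γ / 2) * |(repZ (toPt hD z - toPt hD z₀) : ℝ)| ≤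
      |(repX (toPt hD z - toPt hD z₀) : ℝ)| := by
  refine ⟨7, by norm_num, fun a b hD γ hγ z hz z' hz' hne h h' => ?_⟩
  obtain ⟨h20, ha, hb, hy2⟩ := B_pos hz hγ h
  obtain ⟨h20', ha', hb', hy2'⟩ := B_pos hz' hγ h'
  have hpR : 0 < (z.1 : ℝ) := lt_of_lt_of_le (by norm_num) h20
  have hpR' : 0 < (z'.1 : ℝ) := lt_of_lt_of_le (by norm_num) h20'
  rw [abs_of_pos hpR] at h
  rw [abs_of_pos hpR'] at h'
  have hz0 : z.2 ^ 2 = z.1 ^ 3 + a * z.1 + b := hz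
  have hz0' : z'.2 ^ 2 = z'.1 ^ 3 + a * z'.1 + b := hz'
  have hz1 : (z.2 : ℝ) ^ 2 = (z.1 : ℝ) ^ 3 + a * z.1 + b := by exact_mod_cast hz0
  have hz1' : (z'.2 : ℝ) ^ 2 = (z'.1 : ℝ) ^ 3 + a * z'.1 + b := by exact_mod_cast hz0'
  have hX : (z.1 : ℚ) ≠ (z'.1 : ℚ) := by exact_mod_cast hne
  rw [sub_eq_add_neg (toPt hD z) (toPt hD z'), toPt_eq hD hz0, toPt_eq hD hz0',
    WeierstrassCurve.Affine.Point.neg_some, WeierstrassCurve.Affine.Point.add_of_X_ne hX]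
  have hu : ((((curve a b).addX (z.1 : ℚ) (z'.1 : ℚ) ((curve a b).slope (z.1 : ℚ) (z'.1 : ℚ)
      (z.2 : ℚ) ((curve a b).negY (z'.1 : ℚ) (z'.2 : ℚ)))) : ℚ) : ℝ)
      = (((z.2 : ℝ) + z'.2) / ((z.1 : ℝ) - z'.1)) ^ 2 - z.1 - z'.1 := by
    rw [WeierstrassCurve.Affine.slope_of_X_ne hX]
    simp only [WeierstrassCurve.Affine.addX, WeierstrassCurve.Affine.negY, curve]
    push_cast
    ring
  have hnR : (z.1 : ℝ) ≠ z'.1 := by exact_mod_cast hne
  have hsub : (z.1 : ℝ) - z'.1 ≠ 0 := sub_ne_zero.mpr hnR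
  have hfor : ((z.1 : ℝ) - z'.1) ^ 2 * ((((z.2 : ℝ) + z'.2) / ((z.1 : ℝ) - z'.1)) ^ 2 - z.1 - z'.1)
      = ((z.2 : ℝ) + z'.2) ^ 2 - ((z.1 : ℝ) + z'.1) * ((z.1 : ℝ) - z'.1) ^ 2 := by
    rw [div_pow, mul_sub, mul_sub, mul_div_cancel₀ _ (pow_ne_zero 2 hsub)]
    ring
  have hcore : Real.exp (L a b + γ / 2) ≤
      (((z.2 : ℝ) + z'.2) / ((z.1 : ℝ) - z'.1)) ^ 2 - z.1 - z'.1 := by
    rcases lt_or_gt_of_ne hnR with hlt | hlt
    · exact le_trans (B_exp hγ hpR h)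
        (B_core (a := a) (b := b) hpR hlt ha hb hz1 hz1' hy2 hy2' hfor)
    · refine le_trans (B_exp hγ hpR' h')
        (B_core (a := a) (b := b) (y := z'.2) (y' := z.2) hpR' hlt ha' hb' hz1' hz1 hy2' hy2 ?_)
      have e1 : ((z'.1 : ℝ) - z.1) ^ 2 = ((z.1 : ℝ) - z'.1) ^ 2 := by ring
      rw [e1, hfor]
      ring
  rw [← hu] at hcore
  exact B_some _ (Real.exp_pos _) hcore

end Pool.Agent.H24.LW
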