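import Pool.Agent.H24.LW.PairG
import Pool.Agent.H24.LQ.Count

/-!
# LW Clus

A cluster. Sum `pair_gain` over the pairs `P ≠ Q` of `s` (`M = |s|`, `Γ = γ + log q`): `∑_{P,Q} ∑_v ν_v⁺ β_v(P,Q) ≥ 0` over ALL pairs (`energy2_nonneg` in
LQ/Energy, `nup ≥ 0`), and the diagonal terms are `≤ ν_v⁺/6` (`bern_le` in LQ/PairS). So
`(M²-M)(Γ - C') - M (∑ ν⁺)/6 ≤ ∑_{P≠Q} (SS P + SS Q) ≤ (M²-M)(Γ/8 + 2C)` (`SS P ≤ g P + C ≤ Γ/16 + C`). `∑ ν⁺ ≤ 6L + 4` (`sum_nup_le` in LQ/Weights), `L ≥ 1/2`.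
With `C' + 2C ≤ Γ/8`: `(M-1)(3/4)Γ ≤ L + 1 ≤ 3L`, `M ≤ 1 + 4L/Γ`. (`q ∣ Z(P)` for all `P` gives `q ∣ W`.)
-/

namespace Pool.Agent.H24.LW

open Pool.Agent.H24.LP Pool.Agent.H24.LQ Finset

private lemma bern_top (x : ℝ) : bern ((x : ℝ) : AddCircle (1 : ℝ)) ≤ 1 / 6 := by
  rw [bern, norm_coe]
  have h1 : |x - round x| ≤ 1 / 2 := abs_sub_round x
  have h0 : 0 ≤ |x - round x| := abs_nonneg _
  nlinarith

private lemma beta_top {a b : ℤ} (v : ℕ) (P Q : (curve a b).Point) : beta v P Q ≤ 1 / 6 := by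
  unfold beta
  linarith [bern_top (tau v P - tau v Q), bern_top (tau v P + tau v Q)]

private lemma pairs_nonneg {a b : ℤ} (s : Finset (curve a b).Point) :
    0 ≤ ∑ P ∈ s, ∑ Q ∈ s, ∑ v ∈ places a b, nup a b v * beta v P Q := by
  have e : ∑ P ∈ s, ∑ Q ∈ s, ∑ v ∈ places a b, nup a b v * beta v P Q
      = ∑ v ∈ places a b, nup a b v * (∑ P ∈ s, ∑ Q ∈ s, beta v P Q) := by
    rw [Finset.sum_congr rfl fun P _ => Finset.sum_comm, Finset.sum_comm]
    refine Finset.sum_congr rfl fun v _ => ?_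
    rw [Finset.mul_sum]
    refine Finset.sum_congr rfl fun P _ => ?_
    rw [Finset.mul_sum]
  rw [e]
  refine Finset.sum_nonneg fun v _ => mul_nonneg (nup_nonneg a b v) ?_
  have h := energy2_nonneg s (fun P : (curve a b).Point => tau v P)
  have e2 : ∑ P ∈ s, ∑ Q ∈ s, beta v P Q
      = (∑ P ∈ s, ∑ Q ∈ s, (bern ((tau v P - tau v Q : ℝ) : AddCircle (1 : ℝ))
        + bern ((tau v P + tau v Q : ℝ) : AddCircle (1 : ℝ)))) / 2 := by
    rw [Finset.sum_div]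
    refine Finset.sum_congr rfl fun P _ => ?_
    rw [Finset.sum_div]
    rfl
  rw [e2]
  linarith

private lemma sum_split {ι : Type*} [DecidableEq ι] (s : Finset ι) (A B : ℝ) :
    ∑ i ∈ s, ∑ j ∈ s, (if i = j then A else B)
      = (s.card : ℝ) * (s.card * B + (A - B)) := by
  have h : ∀ i ∈ s, ∑ j ∈ s, (if i = j then A else B) = s.card * B + (A - B) := by
    intro i hi
    have h1 : ∀ j ∈ s, (if i = j then A else B) = B + (if i = j then A - B else 0) := by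
      intro j _
      split_ifs <;> ring
    rw [Finset.sum_congr rfl h1, Finset.sum_add_distrib, Finset.sum_const, nsmul_eq_mul,
      Finset.sum_ite_eq, if_pos hi]
  rw [Finset.sum_congr rfl h, Finset.sum_const, nsmul_eq_mul]

theorem cluster : ∃ C₀ : ℝ, 1 ≤ C₀ ∧ ∀ C : ℝ, 0 ≤ C → ∀ a b : ℤ, D a b ≠ 0 →
    ∀ g : (curve a b).Point → ℝ, IsHt C g → ∀ (γ : ℝ) (q : ℕ), 0 ≤ γ → 0 < q →
    Nat.Coprime q (6 * D a b).natAbs → C₀ * (1 + C) ≤ γ + Real.log q →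
    ∀ s : Finset (curve a b).Point, (∀ P ∈ s, g P ≤ (γ + Real.log q) / 16) →
    (∀ P ∈ s, (q : ℤ) ∣ repZ P) →
    (∀ P ∈ s, γ = 0 ∨ Real.exp (L a b + γ) * |(repZ P : ℝ)| ≤ |(repX P : ℝ)|) →
    (∀ P ∈ s, ∀ Q ∈ s, P ≠ Q → repX P * repZ Q - repX Q * repZ P ≠ 0) →
    (s.card : ℝ) ≤ 1 + 4 * L a b / (γ + Real.log q) := by
  classical
  obtain ⟨C₁, hC₁, hpair⟩ := pair_gain
  refine ⟨8 * (C₁ + 2) + 1, by linarith, ?_⟩
  intro C hC a b hD g hg γ q hγ hq hc hG s hs hqZ hX hW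
  have hL := half_le_L a b
  have hn := sum_nup_le hD
  have hG8 : C₁ + 2 * C ≤ (γ + Real.log q) / 8 := by
    nlinarith [mul_nonneg hC₁ hC]
  have hG0 : 0 < γ + Real.log q := by
    nlinarith [mul_nonneg hC₁ hC]
  have hterm : ∀ P ∈ s, ∀ Q ∈ s, ∑ v ∈ places a b, nup a b v * beta v P Q ≤
      if P = Q then (∑ v ∈ places a b, nup a b v) / 6 else -(3 / 4 * (γ + Real.log q)) := by
    intro P hP Q hQ
    by_cases hPQ : P = Q
    · rw [if_pos hPQ, Finset.sum_div]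
      refine Finset.sum_le_sum fun v _ => ?_
      have h1 := mul_le_mul_of_nonneg_left (beta_top v P Q) (nup_nonneg a b v)
      linarith
    · rw [if_neg hPQ]
      have hdvd : (q : ℤ) ∣ repX P * repZ Q - repX Q * repZ P :=
        dvd_sub (dvd_mul_of_dvd_right (hqZ Q hQ) _) (dvd_mul_of_dvd_right (hqZ P hP) _)
      have hg' : γ = 0 ∨ (Real.exp (L a b + γ) * |(repZ P : ℝ)| ≤ |(repX P : ℝ)| ∧
          Real.exp (L a b + γ) * |(repZ Q : ℝ)| ≤ |(repX Q : ℝ)|) := by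
        rcases hX P hP with h | h
        · exact Or.inl h
        · rcases hX Q hQ with h' | h'
          · exact Or.inl h'
          · exact Or.inr ⟨h, h'⟩
      have h1 := hpair a b hD P Q γ q hγ hq hc (hW P hP Q hQ hPQ) hdvd hg'
      have h2 := hg.ge P
      have h3 := hg.ge Q
      have h4 := hs P hP
      have h5 := hs Q hQ
      linarith
  have hsum : 0 ≤ (s.card : ℝ) * (s.card * (-(3 / 4 * (γ + Real.log q)))
      + ((∑ v ∈ places a b, nup a b v) / 6 - (-(3 / 4 * (γ + Real.log q))))) := by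
    rw [← sum_split]
    exact (pairs_nonneg s).trans
      (Finset.sum_le_sum fun P hP => Finset.sum_le_sum fun Q hQ => hterm P hP Q hQ)
  have hquo : 0 ≤ 4 * L a b / (γ + Real.log q) := by positivity
  rcases Nat.eq_zero_or_pos s.card with h0 | h0
  · rw [h0]
    push_cast
    linarith
  · have hM : (0 : ℝ) < s.card := by exact_mod_cast h0
    have h1 : 0 ≤ (s.card : ℝ) * (-(3 / 4 * (γ + Real.log q)))
      + ((∑ v ∈ places a b, nup a b v) / 6 - (-(3 / 4 * (γ + Real.log q)))) :=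
      nonneg_of_mul_nonneg_right hsum hM
    have h2 : ((s.card : ℝ) - 1) * (γ + Real.log q) ≤ 4 * L a b := by
      nlinarith
    have h3 : (s.card : ℝ) - 1 ≤ 4 * L a b / (γ + Real.log q) := by
      rw [le_div_iff₀ hG0]
      exact h2
    linarith

end Pool.Agent.H24.LW
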