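import Pool.Agent.H24.LR.Quad
import Pool.Agent.H24.LR.Pack

/-!
# LW Cover

Covering by few balls. If `n < 4`, `Z` = one element of `S` (or empty): `g(P-c) ≤ 4R ≤ 80R/9`. Let `n ≥ 4`; take `Z ⊆ S` of maximal cardinality among
the subsets with `g(P-Q) > 80R/n²` for `P ≠ Q`; it covers by maximality. Its size: as in `Pool.Agent.H24.LR.packing`: `ρ = 16R/n² ≤ R`, `B(ρ) = {g ≤ ρ}`;
the translates `P + B(ρ)`, `P ∈ Z`, are disjoint (`4ρ < 80R/n²`) and lie in `B(2R+2ρ) ⊆ B(4R)`; `|B(4R)| ≤ n^r |B(ρ)|` by `class_count'` (LQ/Class):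
`P - Q = nT + τ` gives `n² g T = g(P-Q) ≤ 16R = n²ρ`. `|B(ρ)| ≥ 1`.
-/

namespace Pool.Agent.H24.LW

open Pool.Agent.H24.LP Pool.Agent.H24.LQ Pool.Agent.H24.LR Finset

private lemma sep_card {A : Type*} [AddCommGroup A] {g : A → ℝ} (h : IsQuad g)
    (hfin : ∀ R : ℝ, {P : A | g P ≤ R}.Finite) (r : ℕ) (hr : Module.rank ℤ A ≤ r) {R : ℝ}
    (hR : 0 < R) (n : ℕ) (hn : 4 ≤ n) (Z : Finset A) (hZ : ∀ P ∈ Z, g P ≤ R)
    (hsep : ∀ P ∈ Z, ∀ Q ∈ Z, P ≠ Q → 80 * R / (n : ℝ) ^ 2 < g (P - Q)) :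
    Z.card ≤ n ^ r := by
  classical
  have hn' : (4 : ℝ) ≤ (n : ℝ) := by exact_mod_cast hn
  have hn2 : (16 : ℝ) ≤ (n : ℝ) ^ 2 := by nlinarith
  have hn3 : (0 : ℝ) < (n : ℝ) ^ 2 := by linarith
  have hρ : 16 * R / (n : ℝ) ^ 2 ≤ R := by
    rw [div_le_iff₀ hn3]
    nlinarith
  have hρ1 : 80 * R / (n : ℝ) ^ 2 = 5 * (16 * R / (n : ℝ) ^ 2) := by ring
  have hρ2 : 0 < 16 * R / (n : ℝ) ^ 2 := by positivity
  have hρ3 : (n : ℝ) ^ 2 * (16 * R / (n : ℝ) ^ 2) = 16 * R := mul_div_cancel₀ _ hn3.ne'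
  generalize 16 * R / (n : ℝ) ^ 2 = ρ at hρ hρ1 hρ2 hρ3
  let B1 : Finset A := (hfin ρ).toFinset
  let B4 : Finset A := (hfin (4 * R)).toFinset
  have m1 : ∀ T, T ∈ B1 ↔ g T ≤ ρ := fun T => by
    rw [Set.Finite.mem_toFinset, Set.mem_ofPred_eq]
  have m4 : ∀ T, T ∈ B4 ↔ g T ≤ 4 * R := fun T => by
    rw [Set.Finite.mem_toFinset, Set.mem_ofPred_eq]
  have h1 : (Z ×ˢ B1).card ≤ B4.card := by
    apply Finset.card_le_card_of_injOn (fun x : A × A => x.1 + x.2)
    · intro x hx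
      obtain ⟨hx1, hx2⟩ := Finset.mem_product.1 (Finset.mem_coe.1 hx)
      rw [m1] at hx2
      rw [Finset.mem_coe, m4]
      have h2 := h.add_le x.1 x.2
      have h3 := hZ x.1 hx1
      show g (x.1 + x.2) ≤ 4 * R
      linarith
    · intro x hx y hy hxy
      obtain ⟨hx1, hx2⟩ := Finset.mem_product.1 (Finset.mem_coe.1 hx)
      obtain ⟨hy1, hy2⟩ := Finset.mem_product.1 (Finset.mem_coe.1 hy)
      rw [m1] at hx2 hy2
      have hxy' : x.1 + x.2 = y.1 + y.2 := hxy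
      have h5 : x.1 = y.1 := by
        by_contra hne
        have h2 := hsep x.1 hx1 y.1 hy1 hne
        have h3 : x.1 - y.1 = y.2 - x.2 := by
          rw [sub_eq_sub_iff_add_eq_add, hxy', add_comm]
        rw [h3] at h2
        have h4 := h.sub_le y.2 x.2
        linarith
      have h6 : x.2 = y.2 := by
        rw [h5] at hxy'
        exact add_left_cancel hxy'
      exact Prod.ext h5 h6
  have h2 : B4.card ≤ n ^ r * B1.card := by
    apply class_count' B4 r n (by omega) hr (fun T => g T ≤ ρ) B1.card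
    · intro s hs
      apply Finset.card_le_card
      intro T hT
      rw [m1]
      exact hs T hT
    · intro P hP Q hQ T τ k hk hτ hPQ
      rw [m4] at hP hQ
      have h3 := h.sub_le P Q
      rw [hPQ, h.add_torsion (n • T) hk hτ, h.nsmul] at h3
      show g T ≤ ρ
      have h4 : (n : ℝ) ^ 2 * g T ≤ (n : ℝ) ^ 2 * ρ := by linarith
      exact le_of_mul_le_mul_left h4 hn3
  have h3 : 0 < B1.card := by
    apply Finset.card_pos.2
    refine ⟨0, ?_⟩
    rw [m1, h.zero]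
    exact hρ2.le
  rw [Finset.card_product] at h1
  exact Nat.le_of_mul_le_mul_right (h1.trans h2) h3

theorem cover {A : Type*} [AddCommGroup A] {g : A → ℝ} (h : IsQuad g)
    (hfin : ∀ R : ℝ, {P : A | g P ≤ R}.Finite) (r : ℕ) (hr : Module.rank ℤ A ≤ r) {R : ℝ}
    (hR : 0 < R) (n : ℕ) (hn : 0 < n) (S : Finset A) (hS : ∀ P ∈ S, g P ≤ R) :
    ∃ Z : Finset A, Z ⊆ S ∧ Z.card ≤ n ^ r ∧
      ∀ P ∈ S, ∃ c ∈ Z, g (P - c) ≤ 80 * R / (n : ℝ) ^ 2 := by
  classical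
  rcases S.eq_empty_or_nonempty with rfl | ⟨c, hc⟩
  · exact ⟨∅, Finset.Subset.refl _, by simp, fun P hP => absurd hP (Finset.notMem_empty P)⟩
  have hn0 : (0 : ℝ) < (n : ℝ) := Nat.cast_pos.2 hn
  have hn2 : (0 : ℝ) < (n : ℝ) ^ 2 := by positivity
  rcases Nat.lt_or_ge n 4 with h4 | h4
  · refine ⟨{c}, Finset.singleton_subset_iff.2 hc, ?_, ?_⟩
    · rw [Finset.card_singleton]
      exact Nat.one_le_pow _ _ hn
    · intro P hP
      refine ⟨c, Finset.mem_singleton_self c, ?_⟩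
      have h1 := h.sub_le P c
      have h2 := hS P hP
      have h3 := hS c hc
      have h5 : (n : ℝ) ≤ 3 := by exact_mod_cast (by omega : n ≤ 3)
      have h6 : (n : ℝ) ^ 2 ≤ 9 := by nlinarith
      rw [le_div_iff₀ hn2]
      have h7 : g (P - c) ≤ 4 * R := by linarith
      have h8 : g (P - c) * (n : ℝ) ^ 2 ≤ 4 * R * (n : ℝ) ^ 2 :=
        mul_le_mul_of_nonneg_right h7 hn2.le
      have h9 : 4 * R * (n : ℝ) ^ 2 ≤ 4 * R * 9 :=
        mul_le_mul_of_nonneg_left h6 (by linarith)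
      linarith
  · let F : Finset (Finset A) := S.powerset.filter fun Z =>
      ∀ P ∈ Z, ∀ Q ∈ Z, P ≠ Q → 80 * R / (n : ℝ) ^ 2 < g (P - Q)
    have hF : F.Nonempty := by
      refine ⟨∅, Finset.mem_filter.2 ⟨Finset.empty_mem_powerset S, ?_⟩⟩
      intro P hP
      exact absurd hP (Finset.notMem_empty P)
    obtain ⟨Z, hZF, hmax⟩ := Finset.exists_max_image F Finset.card hF
    obtain ⟨hZS, hsep⟩ := Finset.mem_filter.1 hZF
    rw [Finset.mem_powerset] at hZS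
    refine ⟨Z, hZS, sep_card h hfin r hr hR n h4 Z (fun P hP => hS P (hZS hP)) hsep, ?_⟩
    intro P hP
    by_contra hcon
    push Not at hcon
    have hPZ : P ∉ Z := by
      intro hPZ
      have h1 := hcon P hPZ
      rw [sub_self, h.zero] at h1
      have h2 : 0 < 80 * R / (n : ℝ) ^ 2 := by positivity
      linarith
    have h5 : insert P Z ∈ F := by
      refine Finset.mem_filter.2 ⟨Finset.mem_powerset.2 (Finset.insert_subset hP hZS), ?_⟩
      intro P' hP' Q' hQ' hne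
      rcases Finset.mem_insert.1 hP' with rfl | hP1
      · rcases Finset.mem_insert.1 hQ' with rfl | hQ1
        · exact absurd rfl hne
        · exact hcon Q' hQ1
      · rcases Finset.mem_insert.1 hQ' with rfl | hQ1
        · rw [← neg_sub, h.neg]
          exact hcon P' hP1
        · exact hsep P' hP1 Q' hQ1 hne
    have h6 := hmax _ h5
    rw [Finset.card_insert_of_notMem hPZ] at h6
    omega

end Pool.Agent.H24.LW
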