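import Pool.Agent.H24.LP.NT2

/-!
# LW JD

`|D|` is large if `log⁺ |j|` is small. `H = e^L`. If `H = |a|^{1/2}`: `|j||D| = 6912|a|³` (`abs_j` in LP/NT). If `H = |b|^{1/3}` and `|a| ≤ H²`:
either `|a| ≥ ..` or directly `|D| ≥ 27 b² - 4|a|³ ≥ 23 H⁶`. If `H = 2`: `|D| ≥ 1`.
`D_id`: identity (ring).
-/

namespace Pool.Agent.H24.LW

open Pool.Agent.H24.LP Finset

theorem D_large {a b : ℤ} (hD : D a b ≠ 0) :
    Real.exp (6 * L a b - wInf a b) / 100 ≤ |((D a b : ℤ) : ℝ)| := by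
  have h1 := six_L_le hD
  have h2 : 0 < |((D a b : ℤ) : ℝ)| := lt_of_lt_of_le one_pos (one_le_abs_D hD)
  have h3 : Real.exp (6 * L a b - wInf a b) ≤
      Real.exp (6 * Real.log 2 + Real.log |((D a b : ℤ) : ℝ)|) :=
    Real.exp_le_exp.mpr (by linarith)
  have h4 : Real.exp (6 * Real.log 2 + Real.log |((D a b : ℤ) : ℝ)|) =
      64 * |((D a b : ℤ) : ℝ)| := by
    rw [Real.exp_add, Real.exp_log h2]
    have h5 : Real.exp (6 * Real.log 2) = 64 := by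
      have h6 : (6 : ℝ) * Real.log 2 = Real.log (2 ^ 6) := by
        rw [Real.log_pow]; norm_num
      rw [h6, Real.exp_log (by norm_num)]
      norm_num
    rw [h5]
  rw [h4] at h3
  have h7 : Real.exp (6 * L a b - wInf a b) / 100 ≤ 64 * |((D a b : ℤ) : ℝ)| / 100 :=
    div_le_div_of_nonneg_right h3 (by norm_num)
  linarith

lemma D_id (a b x : ℝ) : 4 * a ^ 3 + 27 * b ^ 2 =
    (3 * x ^ 2 + 4 * a) * (3 * x ^ 2 + a) ^ 2 - 27 * (x ^ 3 + a * x - b) * (x ^ 3 + a * x + b) := by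
  ring

end Pool.Agent.H24.LW
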