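import Pool.Agent.H24.LR.Est

/-!
# LW ModQ

Congruent integral points modulo `q`: the difference reduces to `O`. `T = P - P₀`, `x(T) = U/V` in lowest terms (`U = repX T`, `V = repZ T`):
`U (x-x₀)² = V [(y+y₀)² - (x+x₀)(x-x₀)²]`. For a prime `p` with `p^k ∥ q`, `p ∤ 6D`: if `p ∤ y₀`, the bracket is a unit at `p` (`y ≡ y₀`, `p ≠ 2`), so
`p^{2k} ∣ V`. If `p ∣ y₀`: `p ∤ 3x₀²+a` (otherwise `p ∣ D`, by `D = (3x²+4a)(3x²+a)² - 27(x³+ax-b)(x³+ax+b)`), `N = x²+xx₀+x₀²+a` is a unit at `p`,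
`(y+y₀)(y-y₀) = (x-x₀)N`, so `v(y+y₀) = v(x-x₀) - v(y-y₀)` with `v(y-y₀) ≥ k ≥ 1`, the bracket has valuation `2v(x-x₀) - 2v(y-y₀)`, and
`v(V) = v(U) + 2 v(y-y₀) ≥ 2k` (if `y = y₀` then `N = 0`, excluded). Only `q ∣ V` is wanted.
-/

namespace Pool.Agent.H24.LW

open Pool.Agent.H24.LP Pool.Agent.H24.LQ Pool.Agent.H24.LR Finset

/-- The first identity, and the second one after cancelling `(x-x₀)²`. -/
private lemma modq_ids {a b x y x₀ y₀ U V : ℤ} (h : y ^ 2 = x ^ 3 + a * x + b)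
    (h₀ : y₀ ^ 2 = x₀ ^ 3 + a * x₀ + b) (hne : x ≠ x₀)
    (h1 : U * (x - x₀) ^ 2 = V * ((y + y₀) ^ 2 - (x + x₀) * (x - x₀) ^ 2)) :
    U * (y - y₀) ^ 2 =
      V * ((x ^ 2 + x * x₀ + x₀ ^ 2 + a) ^ 2 - (x + x₀) * (y - y₀) ^ 2) := by
  have hx : (x - x₀) ^ 2 ≠ 0 := pow_ne_zero 2 (sub_ne_zero.mpr hne)
  have e : (y + y₀) * (y - y₀) = (x - x₀) * (x ^ 2 + x * x₀ + x₀ ^ 2 + a) := by
    linear_combination h - h₀
  have e2 : (y + y₀) ^ 2 * (y - y₀) ^ 2 =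
      (x - x₀) ^ 2 * (x ^ 2 + x * x₀ + x₀ ^ 2 + a) ^ 2 := by
    rw [← mul_pow, e, mul_pow]
  apply mul_right_cancel₀ hx
  linear_combination (y - y₀) ^ 2 * h1 + V * e2

private lemma modq_prime {a b x y x₀ y₀ U V : ℤ} (h : y ^ 2 = x ^ 3 + a * x + b)
    (h₀ : y₀ ^ 2 = x₀ ^ 3 + a * x₀ + b) (hne : x ≠ x₀)
    (h1 : U * (x - x₀) ^ 2 = V * ((y + y₀) ^ 2 - (x + x₀) * (x - x₀) ^ 2))
    {p : ℤ} (hp : Prime p) (hp2 : ¬ p ∣ 2) (hpD : ¬ p ∣ D a b) {k : ℕ} (hk : k ≠ 0)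
    (hx : p ^ k ∣ x - x₀) (hy : p ^ k ∣ y - y₀) : p ^ k ∣ V := by
  have hpx : p ∣ x - x₀ := (dvd_pow_self p hk).trans hx
  have hpy : p ∣ y - y₀ := (dvd_pow_self p hk).trans hy
  by_cases hy0 : p ∣ y₀
  · -- second identity
    have h2 := modq_ids h h₀ hne h1
    have hn : ¬ p ∣ 3 * x₀ ^ 2 + a := by
      intro hd
      apply hpD
      have e : D a b = (3 * x₀ ^ 2 + 4 * a) * (3 * x₀ ^ 2 + a) * (3 * x₀ ^ 2 + a)
          - 27 * (x₀ ^ 3 + a * x₀ - b) * y₀ * y₀ := by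
        unfold D
        linear_combination (27 * (x₀ ^ 3 + a * x₀ - b)) * h₀
      rw [e]
      exact dvd_sub (Dvd.dvd.mul_left hd _) (Dvd.dvd.mul_left hy0 _)
    have hC : ¬ p ∣ (x ^ 2 + x * x₀ + x₀ ^ 2 + a) ^ 2 - (x + x₀) * (y - y₀) ^ 2 := by
      intro hd
      have e1 : p ∣ (x + x₀) * (y - y₀) ^ 2 := Dvd.dvd.mul_left (Dvd.dvd.pow hpy two_ne_zero) _
      have e2 : p ∣ (x ^ 2 + x * x₀ + x₀ ^ 2 + a) ^ 2 := (dvd_sub_left e1).mp hd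
      have e3 : p ∣ x ^ 2 + x * x₀ + x₀ ^ 2 + a := hp.dvd_of_dvd_pow e2
      apply hn
      have e4 : 3 * x₀ ^ 2 + a = (x ^ 2 + x * x₀ + x₀ ^ 2 + a) - (x + 2 * x₀) * (x - x₀) := by
        ring
      rw [e4]
      exact dvd_sub e3 (Dvd.dvd.mul_left hpx _)
    have h3 : p ^ k ∣ ((x ^ 2 + x * x₀ + x₀ ^ 2 + a) ^ 2 - (x + x₀) * (y - y₀) ^ 2) * V := by
      rw [mul_comm, ← h2]
      exact Dvd.dvd.mul_left (Dvd.dvd.pow hy two_ne_zero) _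
    exact hp.pow_dvd_of_dvd_mul_left k hC h3
  · have hB : ¬ p ∣ (y + y₀) ^ 2 - (x + x₀) * (x - x₀) ^ 2 := by
      intro hd
      have e1 : p ∣ (x + x₀) * (x - x₀) ^ 2 := Dvd.dvd.mul_left (Dvd.dvd.pow hpx two_ne_zero) _
      have e2 : p ∣ (y + y₀) ^ 2 := (dvd_sub_left e1).mp hd
      have e3 : p ∣ y + y₀ := hp.dvd_of_dvd_pow e2
      have e4 : p ∣ 2 * y₀ := by
        have e5 : 2 * y₀ = (y + y₀) - (y - y₀) := by ring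
        rw [e5]
        exact dvd_sub e3 hpy
      rcases hp.dvd_or_dvd e4 with e5 | e5
      · exact hp2 e5
      · exact hy0 e5
    have h3 : p ^ k ∣ ((y + y₀) ^ 2 - (x + x₀) * (x - x₀) ^ 2) * V := by
      rw [mul_comm, ← h1]
      exact Dvd.dvd.mul_left (Dvd.dvd.pow hx two_ne_zero) _
    exact hp.pow_dvd_of_dvd_mul_left k hB h3

private lemma modq_rat {u : ℚ} {x x₀ y y₀ : ℤ} (hne : x ≠ x₀)
    (hu : u = (((y : ℚ) + y₀) / (x - x₀)) ^ 2 - x - x₀) :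
    u.num * (x - x₀) ^ 2 = (u.den : ℤ) * ((y + y₀) ^ 2 - (x + x₀) * (x - x₀) ^ 2) := by
  have hneQ : (x : ℚ) ≠ (x₀ : ℚ) := by exact_mod_cast hne
  have hx : (x : ℚ) - x₀ ≠ 0 := sub_ne_zero.mpr hneQ
  have h1 : (u.num : ℚ) = u * u.den := (Rat.mul_den_eq_num u).symm
  have h2 : u * ((x : ℚ) - x₀) ^ 2 =
      ((y : ℚ) + y₀) ^ 2 - (x + x₀) * (x - x₀) ^ 2 := by
    have e : (((y : ℚ) + y₀) / (x - x₀)) ^ 2 * ((x : ℚ) - x₀) ^ 2 = ((y : ℚ) + y₀) ^ 2 := by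
      rw [← mul_pow, div_mul_cancel₀ _ hx]
    rw [hu]
    linear_combination e
  have h3 : (u.num : ℚ) * ((x : ℚ) - x₀) ^ 2 =
      (u.den : ℚ) * (((y : ℚ) + y₀) ^ 2 - (x + x₀) * (x - x₀) ^ 2) := by
    rw [h1, ← h2]
    ring
  exact_mod_cast h3

open Classical in
private lemma modq_rep {a b : ℤ} (hD : D a b ≠ 0) {z z₀ : ℤ × ℤ} (hz : z ∈ integralPoints a b)
    (hz₀ : z₀ ∈ integralPoints a b) (hne : z.1 ≠ z₀.1) :
    repX (toPt hD z - toPt hD z₀) * (z.1 - z₀.1) ^ 2 = repZ (toPt hD z - toPt hD z₀) *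
      ((z.2 + z₀.2) ^ 2 - (z.1 + z₀.1) * (z.1 - z₀.1) ^ 2) := by
  have hneQ : (z.1 : ℚ) ≠ (z₀.1 : ℚ) := by exact_mod_cast hne
  have hz1 : z.2 ^ 2 = z.1 ^ 3 + a * z.1 + b := hz
  have hz1₀ : z₀.2 ^ 2 = z₀.1 ^ 3 + a * z₀.1 + b := hz₀
  have hu' : (curve a b).addX (z.1 : ℚ) (z₀.1 : ℚ) ((curve a b).slope (z.1 : ℚ) (z₀.1 : ℚ)
      (z.2 : ℚ) ((curve a b).negY (z₀.1 : ℚ) (z₀.2 : ℚ))) =
      (((z.2 : ℚ) + z₀.2) / (z.1 - z₀.1)) ^ 2 - z.1 - z₀.1 := by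
    rw [WeierstrassCurve.Affine.slope_of_X_ne hneQ]
    simp only [WeierstrassCurve.Affine.addX, WeierstrassCurve.Affine.negY, curve]
    ring
  rw [toPt_eq hD hz1, toPt_eq hD hz1₀, sub_eq_add_neg, WeierstrassCurve.Affine.Point.neg_some,
    WeierstrassCurve.Affine.Point.add_of_X_ne hneQ]
  simp only [repX, repZ]
  exact modq_rat hne hu'

open Classical in
theorem mod_q {a b : ℤ} (hD : D a b ≠ 0) {q : ℕ} (hq : 0 < q)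
    (hc : Nat.Coprime q (6 * D a b).natAbs) {z z₀ : ℤ × ℤ} (hz : z ∈ integralPoints a b)
    (hz₀ : z₀ ∈ integralPoints a b) (hne : z.1 ≠ z₀.1) (hx : (q : ℤ) ∣ z.1 - z₀.1)
    (hy : (q : ℤ) ∣ z.2 - z₀.2) : (q : ℤ) ∣ repZ (toPt hD z - toPt hD z₀) := by
  have hid := modq_rep hD hz hz₀ hne
  rw [Int.natCast_dvd, Nat.dvd_iff_prime_pow_dvd_dvd]
  intro p k hp hk
  rcases Nat.eq_zero_or_pos k with rfl | hk0
  · rw [pow_zero]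
    exact one_dvd _
  have hpq : p ∣ q := (dvd_pow_self p hk0.ne').trans hk
  have hcop : Nat.Coprime p (6 * D a b).natAbs := Nat.Coprime.coprime_dvd_left hpq hc
  have hnot : ¬ (p : ℤ) ∣ 6 * D a b := by
    intro hd
    have h1 : p ∣ (6 * D a b).natAbs := Int.natCast_dvd.mp hd
    have h2 := Nat.dvd_gcd (dvd_refl p) h1
    rw [hcop] at h2
    exact hp.one_lt.ne' (Nat.dvd_one.mp h2)
  have hp2 : ¬ (p : ℤ) ∣ 2 := by
    intro hd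
    apply hnot
    have e : 6 * D a b = (3 * D a b) * 2 := by ring
    rw [e]
    exact Dvd.dvd.mul_left hd _
  have hpD : ¬ (p : ℤ) ∣ D a b := fun hd => hnot (Dvd.dvd.mul_left hd _)
  have hkz : ((p : ℤ)) ^ k ∣ (q : ℤ) := by exact_mod_cast hk
  have h := modq_prime (a := a) (b := b) hz hz₀ hne hid (Nat.prime_iff_prime_int.mp hp) hp2 hpD
    hk0.ne' (hkz.trans hx) (hkz.trans hy)
  have h' : ((p ^ k : ℕ) : ℤ) ∣ repZ (toPt hD z - toPt hD z₀) := by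
    rw [Nat.cast_pow]
    exact h
  exact Int.natCast_dvd.mp h'

end Pool.Agent.H24.LW
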