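import Pool.Agent.H24.LQ.PairS
import Pool.Agent.H24.LP.NT2

/-!
# LW PairG

The pair inequality with a gain. Read the proof of `Pool.Agent.H24.LQ.pair_SS` (LQ/PairS.lean); here without the additive primes, but with two gains.
(a) `∑_v log |W|_v ≥ log q` if `q ∣ W`, `q` coprime to `6D`: the sum is `log |W| - ∑_{p ∣ 6D} v_p(W) log p` (see the proof of `sum_log_nonneg` in LQ/Places), or:
`W = q W'`, `log |W|_v = log |q|_v + log |W'|_v`, `sum_log_nonneg` for `W'`, and for `q` all `|q|_p = 1` at the `p ∣ 6D`, so its sum is `log q`.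
(b) the place infinity, `γ > 0`. If `γ ≤ 5` no gain is needed (constant). If `γ ≥ 5`: `s = sv (fv 0) a b ≤ e^L`, so `s|Z| ≤ |X| e^{-γ}`, `N = |X|`;
`|W| ≤ |X||Z'| + |X'||Z| ≤ 2 |X||X'| e^{-γ-L}`. `T ≤ log(4/3)`: if `ν ≤ 100`, `T = 0`; otherwise `|a| ≥ s²/6` (as in LQ/Pair.lean, robust case),
`|e| ≤ 36 s`, `|w| ≥ |X| - 36 s|Z| ≥ (3/4)|X|` (`e^5 > 144`). With `beta_eq` (LQ/PairS): `Lv P + Lv Q - ν(β - 1/6) = log N + log N' - min(T, T')
≥ log |W| + γ + L - log 2 - log(4/3) ≥ log|W| + log s + γ - 1`.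
-/

namespace Pool.Agent.H24.LW

open Pool.Agent.H24.LP Pool.Agent.H24.LQ Finset

theorem sum_log_ge_q (a b : ℤ) {W : ℤ} (hW : W ≠ 0) (hD : D a b ≠ 0) {q : ℕ} (hq : 0 < q)
    (hc : Nat.Coprime q (6 * D a b).natAbs) (h : (q : ℤ) ∣ W) :
    Real.log q ≤ ∑ v ∈ places a b, Real.log (fv v W) := by
  obtain ⟨W', rfl⟩ := h
  have hW' : W' ≠ 0 := right_ne_zero_of_mul hW
  have hq0 : (q : ℤ) ≠ 0 := by exact_mod_cast hq.ne'
  have h1 : ∀ v ∈ places a b, Real.log (fv v (((q : ℤ) * W' : ℤ) : ℚ))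
      = Real.log (fv v ((q : ℤ) : ℚ)) + Real.log (fv v (W' : ℚ)) := by
    intro v _
    rw [Int.cast_mul, map_mul, Real.log_mul]
    · exact (fv v).ne_zero (by exact_mod_cast hq0)
    · exact (fv v).ne_zero (by exact_mod_cast hW')
  rw [Finset.sum_congr rfl h1, Finset.sum_add_distrib]
  have h2 := sum_log_nonneg a b hW'
  have h3 : ∑ v ∈ places a b, Real.log (fv v ((q : ℤ) : ℚ)) = Real.log q := by
    have h0 : (0 : ℕ) ∉ (6 * D a b).natAbs.primeFactors := fun h =>
      Nat.not_prime_zero (Nat.prime_of_mem_primeFactors h)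
    rw [places, Finset.sum_insert h0]
    have h4 : ∑ x ∈ (6 * D a b).natAbs.primeFactors, Real.log (fv x ((q : ℤ) : ℚ)) = 0 := by
      refine Finset.sum_eq_zero fun p hp => ?_
      have hpr := Nat.prime_of_mem_primeFactors hp
      have hnd : ¬ p ∣ ((q : ℕ) : ℤ).natAbs := by
        rw [Int.natAbs_natCast]
        intro hd
        have h5 : p ∣ Nat.gcd q (6 * D a b).natAbs := Nat.dvd_gcd hd (Nat.dvd_of_mem_primeFactors hp)
        rw [Nat.Coprime.gcd_eq_one hc] at h5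
        exact hpr.one_lt.ne' (Nat.dvd_one.mp h5)
      rw [fv_int hpr hq0, Nat.factorization_eq_zero_of_not_dvd hnd, pow_zero, inv_one, Real.log_one]
    rw [h4, add_zero, fv_zero]
    congr 1
    push_cast
    exact abs_of_nonneg (by positivity)
  rw [h3]
  linarith

/-- `|e| ≤ 36 s` if `ν > 100`. -/
private lemma e_le (f : AbsoluteValue ℚ ℝ) (h2 : 1 / 2 ≤ f 2) (h3 : 1 / 3 ≤ f 3) (a b : ℚ)
    (hD : 4 * a ^ 3 + 27 * b ^ 2 ≠ 0) (hν : ¬ nu f a b ≤ 100) :
    f (3 * b / (2 * a)) ≤ 36 * sv f a b := by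
  have hab : ¬ (a = 0 ∧ b = 0) := by
    rintro ⟨rfl, rfl⟩
    exact hD (by norm_num)
  have hs := sv_pos f a b hab
  have hsub : ∀ u v : ℚ, f (u - v) ≤ f u + f v := by
    intro u v
    have := f.add_le u (-v)
    rwa [← sub_eq_add_neg, map_neg_eq_map] at this
  have hs6 : 0 < sv f a b ^ 6 := pow_pos hs 6
  have hDp : 0 < f (4 * a ^ 3 + 27 * b ^ 2) := f.pos hD
  have hDs : f (4 * a ^ 3 + 27 * b ^ 2) < sv f a b ^ 6 / 54 := by
    by_contra hcon
    push Not at hcon
    apply hν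
    unfold nu
    have e1 : sv f a b ^ 6 / f (4 * a ^ 3 + 27 * b ^ 2) ≤ 54 := by
      rw [div_le_iff₀ hDp]
      linarith
    calc Real.log (sv f a b ^ 6 / f (4 * a ^ 3 + 27 * b ^ 2)) ≤ Real.log 54 :=
          Real.log_le_log (by positivity) e1
      _ ≤ 54 := (Real.log_le_sub_one_of_pos (by norm_num)).trans (by norm_num)
      _ ≤ 100 := by norm_num
  have h2le : f 2 ≤ 2 := by
    have := f.add_le 1 1
    rw [map_one] at this
    norm_num at this
    exact this
  have h3le : f 3 ≤ 3 := by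
    have := f.add_le 2 1
    rw [map_one] at this
    norm_num at this
    linarith
  have h4 : f 4 ≤ 4 := by
    rw [show (4 : ℚ) = 2 * 2 by norm_num, map_mul]
    nlinarith [apply_nonneg f 2]
  have h27 : 1 / 27 ≤ f 27 := by
    rw [show (27 : ℚ) = 3 ^ 3 by norm_num, map_pow]
    calc (1 / 27 : ℝ) = (1 / 3) ^ 3 := by norm_num
      _ ≤ f 3 ^ 3 := pow_le_pow_left₀ (by norm_num) h3 3
  have ha : sv f a b ^ 2 / 6 ≤ f a := by
    rcases sv_or f a b with h | h
    · rw [h]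
      have : 0 < sv f a b ^ 2 := by positivity
      linarith
    · by_contra hcon
      push Not at hcon
      have e1 : f (4 * a ^ 3) ≤ sv f a b ^ 6 / 54 := by
        rw [map_mul, map_pow]
        have e0 : f a ^ 3 ≤ (sv f a b ^ 2 / 6) ^ 3 :=
          pow_le_pow_left₀ (apply_nonneg f _) hcon.le 3
        calc f 4 * f a ^ 3 ≤ 4 * (sv f a b ^ 2 / 6) ^ 3 :=
              mul_le_mul h4 e0 (pow_nonneg (apply_nonneg f _) 3) (by norm_num)
          _ = sv f a b ^ 6 / 54 := by ring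
      have e2 : sv f a b ^ 6 / 27 ≤ f (27 * b ^ 2) := by
        rw [map_mul, map_pow, h, ← pow_mul]
        calc sv f a b ^ 6 / 27 = 1 / 27 * sv f a b ^ (3 * 2) := by ring
          _ ≤ f 27 * sv f a b ^ (3 * 2) := mul_le_mul_of_nonneg_right h27 (by positivity)
      have e3 := hsub (4 * a ^ 3 + 27 * b ^ 2) (4 * a ^ 3)
      rw [add_sub_cancel_left] at e3
      linarith
  have ha0 : 0 < f a := lt_of_lt_of_le (by positivity) ha
  rw [map_div₀, map_mul, map_mul]
  have e1 : 0 < f 2 * f a := mul_pos (by linarith) ha0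
  rw [div_le_iff₀ e1]
  have e2 : f 3 * f b ≤ 3 * sv f a b ^ 3 :=
    mul_le_mul h3le (le_sv_cube f a b) (apply_nonneg f _) (by norm_num)
  have e3 : 1 / 2 * (sv f a b ^ 2 / 6) ≤ f 2 * f a :=
    mul_le_mul h2 ha (by positivity) (by linarith)
  have e4 : 36 * sv f a b * (1 / 2 * (sv f a b ^ 2 / 6)) ≤ 36 * sv f a b * (f 2 * f a) :=
    mul_le_mul_of_nonneg_left e3 (by positivity)
  have e5 : 36 * sv f a b * (1 / 2 * (sv f a b ^ 2 / 6)) = 3 * sv f a b ^ 3 := by ring
  linarith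

/-- `s ≤ e^L`. -/
private lemma sv_le_exp (a b : ℤ) : sv (fv 0) (a : ℚ) (b : ℚ) ≤ Real.exp (L a b) := by
  unfold sv
  rw [fv_zero, fv_zero, Rat.cast_intCast, Rat.cast_intCast]
  refine max_le ?_ ?_
  · rcases eq_or_ne a 0 with rfl | ha
    · simp only [Int.cast_zero, abs_zero, Real.sqrt_zero]
      exact (Real.exp_pos _).le
    · have ha' : 0 < |(a : ℝ)| := abs_pos.mpr (by exact_mod_cast ha)
      have h1 : Real.log |(a : ℝ)| / 2 ≤ L a b := (le_max_left _ _).trans (le_max_right _ _)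
      rw [← Real.log_le_iff_le_exp (Real.sqrt_pos.mpr ha'), Real.log_sqrt ha'.le]
      exact h1
  · rcases eq_or_ne b 0 with rfl | hb
    · simp only [Int.cast_zero, abs_zero]
      rw [Real.zero_rpow (by norm_num)]
      exact (Real.exp_pos _).le
    · have hb' : 0 < |(b : ℝ)| := abs_pos.mpr (by exact_mod_cast hb)
      have h1 : Real.log |(b : ℝ)| / 3 ≤ L a b := (le_max_right _ _).trans (le_max_right _ _)
      rw [← Real.log_le_iff_le_exp (Real.rpow_pos_of_pos hb' _), Real.log_rpow hb']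
      linarith

private lemma exp_five : (144 : ℝ) ≤ Real.exp 5 := by
  have h1 : (2.7182818283 : ℝ) < Real.exp 1 := Real.exp_one_gt_d9
  have h2 : Real.exp 5 = Real.exp 1 ^ 5 := by
    rw [← Real.exp_nat_mul]
    norm_num
  rw [h2]
  calc (144 : ℝ) ≤ (2.7182818283 : ℝ) ^ 5 := by norm_num
    _ ≤ Real.exp 1 ^ 5 := pow_le_pow_left₀ (by norm_num) h1.le 5

section arch

variable {a b : ℤ} {X Z : ℤ} {γ : ℝ}

private lemma sZ_le (h : Real.exp (L a b + γ) * |(Z : ℝ)| ≤ |(X : ℝ)|) :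
    sv (fv 0) (a : ℚ) (b : ℚ) * |(Z : ℝ)| ≤ |(X : ℝ)| * Real.exp (-γ) := by
  have h1 := sv_le_exp a b
  rw [Real.exp_add] at h
  have h2 : Real.exp (L a b) * |(Z : ℝ)| ≤ |(X : ℝ)| * Real.exp (-γ) := by
    rw [Real.exp_neg, ← div_eq_mul_inv, le_div_iff₀ (Real.exp_pos _)]
    linarith
  exact (mul_le_mul_of_nonneg_right h1 (abs_nonneg _)).trans h2

private lemma Nv_eq (hγ : 5 ≤ γ) (h : Real.exp (L a b + γ) * |(Z : ℝ)| ≤ |(X : ℝ)|) :
    Nv (fv 0) (a : ℚ) (b : ℚ) X Z = |(X : ℝ)| := by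
  unfold Nv
  rw [fv_zero, fv_zero, Rat.cast_intCast, Rat.cast_intCast]
  refine max_eq_left ((sZ_le h).trans ?_)
  have h1 : Real.exp (-γ) ≤ 1 := Real.exp_le_one_iff.mpr (by linarith)
  exact mul_le_of_le_one_right (abs_nonneg _) h1

private lemma T_le (hD : 4 * (a : ℚ) ^ 3 + 27 * (b : ℚ) ^ 2 ≠ 0) (hγ : 5 ≤ γ) (hX : X ≠ 0)
    (h : Real.exp (L a b + γ) * |(Z : ℝ)| ≤ |(X : ℝ)|) :
    Tv (fv 0) (a : ℚ) (b : ℚ) 100 X Z ≤ Real.log (4 / 3) := by
  unfold Tv
  split_ifs with hν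
  · exact Real.log_nonneg (by norm_num)
  · have he := e_le (fv 0) (fv_two 0) (fv_three 0) (a : ℚ) (b : ℚ) hD hν
    have hXp : 0 < |(X : ℝ)| := abs_pos.mpr (by exact_mod_cast hX)
    have hsZ := sZ_le h
    have hexp : Real.exp (-γ) ≤ 1 / 144 := by
      have h1 : Real.exp (-γ) ≤ Real.exp (-5) := Real.exp_le_exp.mpr (by linarith)
      have h2 : Real.exp (-5) ≤ 1 / 144 := by
        rw [Real.exp_neg, ← one_div]
        exact one_div_le_one_div_of_le (by norm_num) exp_five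
      linarith
    have hw : 3 / 4 * |(X : ℝ)| ≤ fv 0 (wv (a : ℚ) (b : ℚ) X Z) := by
      unfold wv
      have h1 := (fv 0).add_le (X + 3 * (b : ℚ) / (2 * a) * Z) (-(3 * (b : ℚ) / (2 * a) * Z))
      rw [add_neg_cancel_right, map_neg_eq_map, map_mul, fv_zero (X : ℚ), fv_zero (Z : ℚ), Rat.cast_intCast,
        Rat.cast_intCast] at h1
      have h2 : fv 0 (3 * (b : ℚ) / (2 * a)) * |(Z : ℝ)| ≤ 36 * (sv (fv 0) (a : ℚ) (b : ℚ) * |(Z : ℝ)|) := by
        rw [← mul_assoc]
        exact mul_le_mul_of_nonneg_right he (abs_nonneg _)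
      have h3 : |(X : ℝ)| * Real.exp (-γ) ≤ |(X : ℝ)| * (1 / 144) :=
        mul_le_mul_of_nonneg_left hexp (abs_nonneg _)
      linarith
    rw [Nv_eq hγ h]
    have hM : 3 / 4 * |(X : ℝ)| ≤ Mv (fv 0) (a : ℚ) (b : ℚ) X Z := by
      unfold Mv
      rw [Nv_eq hγ h]
      exact (le_min hw (by linarith)).trans (le_max_left _ _)
    have hMp : 0 < Mv (fv 0) (a : ℚ) (b : ℚ) X Z := lt_of_lt_of_le (by positivity) hM
    refine Real.log_le_log (div_pos hXp hMp) ?_
    rw [div_le_iff₀ hMp]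
    linarith

private lemma arch {X' Z' : ℤ} (hD : 4 * (a : ℚ) ^ 3 + 27 * (b : ℚ) ^ 2 ≠ 0) (hγ : 5 ≤ γ)
    (hW : X * Z' - X' * Z ≠ 0)
    (h : Real.exp (L a b + γ) * |(Z : ℝ)| ≤ |(X : ℝ)|) (h' : Real.exp (L a b + γ) * |(Z' : ℝ)| ≤ |(X' : ℝ)|) :
    min (Tv (fv 0) (a : ℚ) (b : ℚ) 100 X Z) (Tv (fv 0) (a : ℚ) (b : ℚ) 100 X' Z')
      + Real.log (fv 0 ((X * Z' - X' * Z : ℤ) : ℚ)) + Real.log (sv (fv 0) (a : ℚ) (b : ℚ)) + γ - 1
      ≤ Real.log (Nv (fv 0) (a : ℚ) (b : ℚ) X Z) + Real.log (Nv (fv 0) (a : ℚ) (b : ℚ) X' Z') := by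
  have hE := Real.exp_pos (L a b + γ)
  have hX : X ≠ 0 := by
    rintro rfl
    rw [Int.cast_zero, abs_zero] at h
    have h1 : |(Z : ℝ)| ≤ 0 := by
      by_contra hcon
      push Not at hcon
      have := mul_pos hE hcon
      linarith
    have h2 : (Z : ℝ) = 0 := abs_eq_zero.mp (le_antisymm h1 (abs_nonneg _))
    have h3 : Z = 0 := by exact_mod_cast h2
    exact hW (by rw [h3]; ring)
  have hX' : X' ≠ 0 := by
    rintro rfl
    rw [Int.cast_zero, abs_zero] at h'
    have h1 : |(Z' : ℝ)| ≤ 0 := by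
      by_contra hcon
      push Not at hcon
      have := mul_pos hE hcon
      linarith
    have h2 : (Z' : ℝ) = 0 := abs_eq_zero.mp (le_antisymm h1 (abs_nonneg _))
    have h3 : Z' = 0 := by exact_mod_cast h2
    exact hW (by rw [h3]; ring)
  have hXp : 0 < |(X : ℝ)| := abs_pos.mpr (by exact_mod_cast hX)
  have hXp' : 0 < |(X' : ℝ)| := abs_pos.mpr (by exact_mod_cast hX')
  have hT : min (Tv (fv 0) (a : ℚ) (b : ℚ) 100 X Z) (Tv (fv 0) (a : ℚ) (b : ℚ) 100 X' Z') ≤ Real.log (4 / 3) :=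
    (min_le_left _ _).trans (T_le hD hγ hX h)
  rw [Nv_eq hγ h, Nv_eq hγ h']
  have hab : ¬ ((a : ℚ) = 0 ∧ (b : ℚ) = 0) := by
    rintro ⟨h1, h2⟩
    exact hD (by rw [h1, h2]; norm_num)
  have hs := sv_pos (fv 0) (a : ℚ) (b : ℚ) hab
  have hls : Real.log (sv (fv 0) (a : ℚ) (b : ℚ)) ≤ L a b := by
    rw [Real.log_le_iff_le_exp hs]
    exact sv_le_exp a b
  have hWp : 0 < fv 0 ((X * Z' - X' * Z : ℤ) : ℚ) := (fv 0).pos (by exact_mod_cast hW)
  have hlW : Real.log (fv 0 ((X * Z' - X' * Z : ℤ) : ℚ)) ≤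
      Real.log 2 + Real.log |(X : ℝ)| + Real.log |(X' : ℝ)| - (L a b + γ) := by
    have e1 : fv 0 ((X * Z' - X' * Z : ℤ) : ℚ) ≤ 2 * |(X : ℝ)| * |(X' : ℝ)| / Real.exp (L a b + γ) := by
      rw [fv_zero, le_div_iff₀ hE]
      push_cast
      have e2 : |(X : ℝ) * Z' - X' * Z| ≤ |(X : ℝ)| * |(Z' : ℝ)| + |(X' : ℝ)| * |(Z : ℝ)| := by
        have := abs_sub ((X : ℝ) * Z') (X' * Z)
        rwa [abs_mul, abs_mul] at this
      have e3 : |(X : ℝ)| * (Real.exp (L a b + γ) * |(Z' : ℝ)|) ≤ |(X : ℝ)| * |(X' : ℝ)| :=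
        mul_le_mul_of_nonneg_left h' (abs_nonneg _)
      have e4 : |(X' : ℝ)| * (Real.exp (L a b + γ) * |(Z : ℝ)|) ≤ |(X' : ℝ)| * |(X : ℝ)| :=
        mul_le_mul_of_nonneg_left h (abs_nonneg _)
      have e5 := mul_le_mul_of_nonneg_right e2 hE.le
      linarith
    have e6 := Real.log_le_log hWp e1
    rw [Real.log_div (by positivity) hE.ne', Real.log_mul (by positivity) hXp'.ne',
      Real.log_mul (by norm_num) hXp.ne', Real.log_exp] at e6
    exact e6
  have hnum : Real.log 2 + Real.log (4 / 3) ≤ 1 := by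
    rw [← Real.log_mul (by norm_num) (by norm_num), Real.log_le_iff_le_exp (by norm_num)]
    have h1 : (2.7182818283 : ℝ) < Real.exp 1 := Real.exp_one_gt_d9
    linarith
  linarith

end arch

theorem pair_gain : ∃ C : ℝ, 0 ≤ C ∧ ∀ a b : ℤ, D a b ≠ 0 →
    ∀ (P Q : (curve a b).Point) (γ : ℝ) (q : ℕ), 0 ≤ γ → 0 < q →
      Nat.Coprime q (6 * D a b).natAbs →
      repX P * repZ Q - repX Q * repZ P ≠ 0 →
      (q : ℤ) ∣ repX P * repZ Q - repX Q * repZ P →
      (γ = 0 ∨ (Real.exp (L a b + γ) * |(repZ P : ℝ)| ≤ |(repX P : ℝ)| ∧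
        Real.exp (L a b + γ) * |(repZ Q : ℝ)| ≤ |(repX Q : ℝ)|)) →
      ∑ v ∈ places a b, nup a b v * beta v P Q + γ + Real.log q - C ≤ SS P + SS Q := by
  classical
  obtain ⟨C, hC0, hC⟩ := pair_robust
  refine ⟨5 * C + Real.log 31 + 6, by have := Real.log_nonneg (x := 31) (by norm_num); linarith,
    fun a b hD P Q γ q hγ0 hq hcop hW hqW hγ => ?_⟩
  have hDq := D_cast_ne hD
  set W : ℤ := repX P * repZ Q - repX Q * repZ P with hWdef
  have hWq : ((repX P : ℤ) : ℚ) * (repZ Q : ℤ) - (repX Q : ℤ) * (repZ P : ℤ) ≠ 0 := by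
    have : ((W : ℤ) : ℚ) ≠ 0 := by exact_mod_cast hW
    rw [hWdef] at this
    push_cast at this
    exact this
  have hWc : ((repX P : ℤ) : ℚ) * (repZ Q : ℤ) - (repX Q : ℤ) * (repZ P : ℤ) = (W : ℚ) := by
    rw [hWdef]; push_cast; ring
  have general : ∀ v ∈ places a b, nu (fv v) a b * (beta v P Q - 1 / 6)
      + Real.log (fv v W) + Real.log (sv (fv v) a b) - err C v ≤
      Lv (fv v) a b (thr v) (repX P) (repZ P) + Lv (fv v) a b (thr v) (repX Q) (repZ Q) := by
    intro v hv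
    rw [beta_eq hD]
    by_cases h5 : 5 ≤ v
    · have hp : v.Prime := by
        rcases mem_places hv with h | h
        · omega
        · exact h
      have := pair_exact (fv v) (fv_nonarch hp) (fv_two_eq hp h5) (fv_three_eq hp h5) a b hDq hWq
      rw [hWc] at this
      simp only [thr, err, h5, if_true, Lv]
      linarith
    · have := hC (fv v) (fv_two v) (fv_three v) a b hDq _ _ _ _ hWq
      rw [hWc] at this
      simp only [thr, err, h5, if_false, Lv]
      linarith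
  -- the local inequality with the gain
  have key : ∀ v ∈ places a b, nu (fv v) a b * (beta v P Q - 1 / 6)
      + Real.log (fv v W) + Real.log (sv (fv v) a b) - err C v + (if v = 0 then γ - 6 else 0) ≤
      Lv (fv v) a b (thr v) (repX P) (repZ P) + Lv (fv v) a b (thr v) (repX Q) (repZ Q) := by
    intro v hv
    by_cases hv0 : v = 0
    · rw [if_pos hv0]
      rcases le_or_gt γ 5 with h5 | h5
      · have := general v hv
        linarith
      · rcases hγ with hγ | ⟨hP, hQ⟩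
        · linarith
        · subst hv0
          have h1 := arch (γ := γ) hDq h5.le hW hP hQ
          rw [beta_eq hD]
          have ht : thr 0 = 100 := by simp [thr]
          have he : err C 0 = C := by simp [err]
          rw [ht, he]
          simp only [Lv]
          rw [← hWdef] at h1
          linarith
    · rw [if_neg hv0, add_zero]
      exact general v hv
  have hs := Finset.sum_le_sum key
  simp only [Finset.sum_sub_distrib, Finset.sum_add_distrib] at hs
  have h1 := sum_log_ge_q a b hW hD hq hcop hqW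
  have h2 := sum_log_sv (a := a) (b := b) hD
  have h3 := sum_err_le hC0 (places a b)
  have h0mem : (0 : ℕ) ∈ places a b := Finset.mem_insert_self _ _
  have h4 : ∑ v ∈ places a b, (if v = 0 then γ - 6 else 0) = γ - 6 := by
    rw [Finset.sum_ite_eq' (places a b) 0 (fun _ => γ - 6), if_pos h0mem]
  -- positive parts
  have h5 : ∑ v ∈ places a b, nup a b v * beta v P Q - Real.log 31 ≤
      ∑ v ∈ places a b, nu (fv v) a b * (beta v P Q - 1 / 6)
        + (∑ v ∈ places a b, nu (fv v) a b) / 6 := by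
    have e : ∑ v ∈ places a b, nu (fv v) a b * (beta v P Q - 1 / 6)
        + (∑ v ∈ places a b, nu (fv v) a b) / 6 = ∑ v ∈ places a b, nu (fv v) a b * beta v P Q := by
      rw [Finset.sum_div, ← Finset.sum_add_distrib]
      exact Finset.sum_congr rfl fun v _ => by ring
    rw [e]
    have h0 : (0 : ℕ) ∉ (6 * D a b).natAbs.primeFactors := by
      intro h
      exact Nat.not_prime_zero (Nat.prime_of_mem_primeFactors h)
    unfold places
    rw [Finset.sum_insert h0, Finset.sum_insert h0]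
    have hp : ∑ v ∈ (6 * D a b).natAbs.primeFactors, nup a b v * beta v P Q
        = ∑ v ∈ (6 * D a b).natAbs.primeFactors, nu (fv v) a b * beta v P Q := by
      refine Finset.sum_congr rfl fun v hv => ?_
      have hpr := Nat.prime_of_mem_primeFactors hv
      rw [nup, max_eq_right (nu_prime_nonneg hD hpr)]
    have hz : nup a b 0 * beta 0 P Q - Real.log 31 ≤ nu (fv 0) a b * beta 0 P Q := by
      rcases le_total 0 (nu (fv 0) a b) with h | h
      · have := Real.log_nonneg (x := 31) (by norm_num)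
        rw [nup, max_eq_right h]
        linarith
      · have hβ : beta 0 P Q ≤ 1 / 6 := by
          unfold beta
          have b1 := bern_le ((tau 0 P - tau 0 Q : ℝ) : AddCircle (1 : ℝ))
          have b2 := bern_le ((tau 0 P + tau 0 Q : ℝ) : AddCircle (1 : ℝ))
          linarith
        have hge := nu_ge (fv 0) a b hDq
        have hl := Real.log_nonneg (x := 31) (by norm_num)
        rw [nup, max_eq_left h, zero_mul]
        nlinarith
    linarith
  rw [h4] at hs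
  have h6 : SS P + SS Q = ∑ v ∈ places a b, Lv (fv v) a b (thr v) (repX P) (repZ P)
      + ∑ v ∈ places a b, Lv (fv v) a b (thr v) (repX Q) (repZ Q) := rfl
  rw [h6]
  linarith

end Pool.Agent.H24.LW
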