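import Pool.Agent.H24.LW.ArchA
import Pool.Agent.H24.LW.ArchB
import Pool.Agent.H24.LW.Clus
import Pool.Agent.H24.LW.Cover
import Pool.Agent.H24.LW.JD
import Pool.Agent.H24.LW.ModQ
import Pool.Agent.H24.LW.PairG
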