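import Pool.Agent.H24.LW.ArchS
import Pool.Agent.H24.LW.JD
import Pool.Agent.H24.LR.Est

/-!
# LW ArchA

Two integral points with close abscissas and `y y' ≥ 0` have a difference near `O` at infinity. `H = e^L`, `T = P - P₀`,
`x(T) = ((y+y₀)/(x-x₀))² - x - x₀`, and `(y+y₀)(y-y₀) = (x-x₀) N`, `N = x²+xx₀+x₀²+a`. Let `θ = γ/16`, `|x|, |x₀| ≤ H e^θ`, `|x-x₀| ≤ H e^{-γ}`, `log⁺|j| ≤ γ/8`,
so `|D| ≥ H⁶ e^{-γ/8}/100` (`D_large`).
Case A: `max(y², y₀²) ≥ H³ e^{-γ}`. `(y+y₀)² ≥ H³e^{-γ}` (same sign), so `((y+y₀)/(x-x₀))² ≥ H e^{γ}`, `x(T) ≥ He^γ - 2He^θ ≥ H e^{γ/2}` for `γ ≥ K`.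
Case B: `y², y₀² ≤ H³ e^{-γ}`. By `D_id` at `x`: `|D| ≤ 7 H² e^{2θ} f'(x)² + 81 H³ e^{3θ} y²`, `f' = 3x²+a`; `81 H⁶ e^{3θ-γ} ≤ |D|/2`, so
`f'(x)² ≥ c H⁴ e^{-γ/8-2θ}`, `|f'(x)| ≥ c' H² e^{-γ/8}`. `|N - f'(x)| = |(x₀-x)(x₀+2x)| ≤ 3H²e^{θ-γ}`, so `|N| ≥ c'' H² e^{-γ/8}`, `≠ 0`, so `y ≠ y₀`, and
`((y+y₀)/(x-x₀))² = N²/(y-y₀)² ≥ c H⁴ e^{-γ/4}/(4 H³ e^{-γ}) = c H e^{3γ/4}`; `x(T) ≥ H e^{γ/2}` for `γ ≥ K`.
`x(T) = repX T/repZ T` (see `Est.lean` for the way to the coordinates of the difference).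
-/

namespace Pool.Agent.H24.LW

open Pool.Agent.H24.LP Pool.Agent.H24.LQ Pool.Agent.H24.LR Pool.Agent.H24.LW.ArchS Finset

open Classical in
theorem arch_short : ∃ K : ℝ, 1 ≤ K ∧ ∀ (a b : ℤ) (hD : D a b ≠ 0) (γ : ℝ), K ≤ γ →
    wInf a b ≤ γ / 8 → ∀ z ∈ integralPoints a b, ∀ z₀ ∈ integralPoints a b, z.1 ≠ z₀.1 →
    0 ≤ z.2 * z₀.2 → |(z.1 : ℝ)| ≤ Real.exp (L a b + γ / 16) →
    |(z₀.1 : ℝ)| ≤ Real.exp (L a b + γ / 16) →
    |(z.1 : ℝ) - z₀.1| ≤ Real.exp (L a b - γ) →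
    Real.exp (L a b + γ / 2) * |(repZ (toPt hD z - toPt hD z₀) : ℝ)| ≤
      |(repX (toPt hD z - toPt hD z₀) : ℝ)| := by
  refine ⟨160, by norm_num, ?_⟩
  intro a b hD γ hγ hw z hz z₀ hz₀ hne hyy hx hx0 hxx
  have hz1 : z.2 ^ 2 = z.1 ^ 3 + a * z.1 + b := hz
  have hz1₀ : z₀.2 ^ 2 = z₀.1 ^ 3 + a * z₀.1 + b := hz₀
  have hneQ : (z.1 : ℚ) ≠ (z₀.1 : ℚ) := by exact_mod_cast hne
  obtain ⟨r, v, hv, hr', e⟩ := toPt_sub hD hz1 hz1₀ hneQ
  have eX : repX (toPt hD z - toPt hD z₀) = r.num := congrArg repX e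
  have eZ : repZ (toPt hD z - toPt hD z₀) = (r.den : ℤ) := congrArg repZ e
  rw [eX, eZ]
  have hden : (0 : ℝ) < ((r.den : ℤ) : ℝ) := by exact_mod_cast r.den_pos
  have hcast : ((r.num : ℤ) : ℝ) / ((r.den : ℤ) : ℝ) = (r : ℝ) := by
    rw [Rat.cast_def]
    push_cast
    rfl
  have hnum : ((r.num : ℤ) : ℝ) = (r : ℝ) * ((r.den : ℤ) : ℝ) := by
    rw [← hcast, div_mul_cancel₀ _ hden.ne']
  rw [hnum, abs_mul]
  apply mul_le_mul_of_nonneg_right _ (abs_nonneg _)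
  refine le_trans ?_ (le_abs_self _)
  rw [hr']
  push_cast
  -- scaling
  set g : ℝ := Real.exp (L a b / 2) with hg
  set Q : ℝ := Real.exp (γ / 16) with hQ
  have hg0 : 0 < g := Real.exp_pos _
  have hQ0 : 0 < Q := Real.exp_pos _
  have gpow : ∀ k : ℕ, g ^ k = Real.exp (k * (L a b / 2)) := fun k => by
    rw [hg, ← Real.exp_nat_mul]
  have Qpow : ∀ k : ℕ, Q ^ k = Real.exp (k * (γ / 16)) := fun k => by
    rw [hQ, ← Real.exp_nat_mul]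
  have hQ10 : 10 ≤ Q := by
    have h1 := Real.add_one_le_exp (γ / 16)
    linarith
  have e1 : Real.exp (L a b + γ / 2) = g ^ 2 * Q ^ 8 := by
    rw [gpow, Qpow, ← Real.exp_add]
    congr 1
    push_cast
    ring
  have e2 : Real.exp (L a b + γ / 16) = g ^ 2 * Q := by
    rw [gpow, hQ, ← Real.exp_add]
    congr 1
    push_cast
    ring
  have e3 : Real.exp (L a b - γ) * Q ^ 16 = g ^ 2 := by
    rw [gpow, Qpow, ← Real.exp_add]
    congr 1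
    push_cast
    ring
  have e4 : Real.exp (2 * L a b) = g ^ 4 := by
    rw [gpow]
    congr 1
    push_cast
    ring
  have e5 : Real.exp (3 * L a b) = g ^ 6 := by
    rw [gpow]
    congr 1
    push_cast
    ring
  have hDl : g ^ 12 / (100 * Q ^ 2) ≤ |((D a b : ℤ) : ℝ)| := by
    refine le_trans ?_ (D_large hD)
    have h1 : g ^ 12 / (100 * Q ^ 2) = Real.exp (6 * L a b - γ / 8) / 100 := by
      rw [div_eq_div_iff (by positivity) (by norm_num)]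
      have h2 : Real.exp (6 * L a b - γ / 8) * Q ^ 2 = g ^ 12 := by
        rw [gpow, Qpow, ← Real.exp_add]
        congr 1
        push_cast
        ring
      rw [← h2]
      ring
    rw [h1]
    apply div_le_div_of_nonneg_right _ (by norm_num)
    exact Real.exp_le_exp.mpr (by linarith)
  have hYR : ((z.2 : ℤ) : ℝ) ^ 2 = (z.1 : ℝ) ^ 3 + a * z.1 + b := by exact_mod_cast hz1
  have hYR0 : ((z₀.2 : ℤ) : ℝ) ^ 2 = (z₀.1 : ℝ) ^ 3 + a * z₀.1 + b := by exact_mod_cast hz1₀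
  have hneR : (z.1 : ℝ) ≠ (z₀.1 : ℝ) := by exact_mod_cast hne
  have hyyR : (0 : ℝ) ≤ (z.2 : ℝ) * z₀.2 := by exact_mod_cast hyy
  have key := scaled (α := (a : ℝ) / g ^ 4) (β := (b : ℝ) / g ^ 6) (u := (z.1 : ℝ) / g ^ 2)
    (v := (z₀.1 : ℝ) / g ^ 2) (s := (z.2 : ℝ) / g ^ 3) (t := (z₀.2 : ℝ) / g ^ 3) (Q := Q) hQ10
    (by
      rw [abs_div, abs_of_pos (by positivity : 0 < g ^ 4), div_le_one (by positivity), ← e4]
      exact abs_a_le a b)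
    (by
      rw [abs_div, abs_of_pos (by positivity : 0 < g ^ 6), div_le_one (by positivity), ← e5]
      exact abs_b_le a b)
    (by
      rw [div_pow, hYR]
      field_simp)
    (by
      rw [div_pow, hYR0]
      field_simp)
    (by
      rw [div_mul_div_comm]
      exact div_nonneg hyyR (by positivity))
    (by
      intro h
      apply hneR
      exact (div_left_inj' (by positivity : g ^ 2 ≠ 0)).mp h)
    (by
      rw [abs_div, abs_of_pos (by positivity : 0 < g ^ 2), div_le_iff₀ (by positivity),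
        mul_comm Q, ← e2]
      exact hx)
    (by
      rw [abs_div, abs_of_pos (by positivity : 0 < g ^ 2), div_le_iff₀ (by positivity),
        mul_comm Q, ← e2]
      exact hx0)
    (by
      rw [← sub_div, abs_div, abs_of_pos (by positivity : 0 < g ^ 2), div_mul_eq_mul_div,
        div_le_one (by positivity), ← e3]
      exact mul_le_mul_of_nonneg_right hxx (by positivity))
    (by
      have h1 : 4 * ((a : ℝ) / g ^ 4) ^ 3 + 27 * ((b : ℝ) / g ^ 6) ^ 2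
          = ((D a b : ℤ) : ℝ) / g ^ 12 := by
        rw [D]
        push_cast
        field_simp
      rw [h1, abs_div, abs_of_pos (by positivity : 0 < g ^ 12), le_div_iff₀ (by positivity)]
      calc 1 / (100 * Q ^ 2) * g ^ 12 = g ^ 12 / (100 * Q ^ 2) := by ring
        _ ≤ _ := hDl)
  have hfin : (((z.2 : ℝ) + z₀.2) / (z.1 - z₀.1)) ^ 2 - z.1 - z₀.1 =
      g ^ 2 * ((((z.2 : ℝ) / g ^ 3 + (z₀.2 : ℝ) / g ^ 3) /
        ((z.1 : ℝ) / g ^ 2 - (z₀.1 : ℝ) / g ^ 2)) ^ 2 - (z.1 : ℝ) / g ^ 2 - (z₀.1 : ℝ) / g ^ 2) := by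
    have hd : (z.1 : ℝ) - z₀.1 ≠ 0 := sub_ne_zero.mpr hneR
    rw [← add_div, ← sub_div]
    field_simp
  rw [hfin, e1]
  exact mul_le_mul_of_nonneg_left key (by positivity)

end Pool.Agent.H24.LW
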