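import Mathlib

/-!
# LW ArchS

The scaled inequality used in `ArchA` (in a module of its own, compiled in parallel).
-/

namespace Pool.Agent.H24.LW.ArchS

/-- The scaled inequality. -/
lemma scaled {α β u v s t Q : ℝ} (hQ : 10 ≤ Q) (hα : |α| ≤ 1) (hβ : |β| ≤ 1)
    (hs : s ^ 2 = u ^ 3 + α * u + β) (ht : t ^ 2 = v ^ 3 + α * v + β) (hst : 0 ≤ s * t)
    (hne : u ≠ v) (hu : |u| ≤ Q) (hv : |v| ≤ Q) (huv : |u - v| * Q ^ 16 ≤ 1)
    (hD : 1 / (100 * Q ^ 2) ≤ |4 * α ^ 3 + 27 * β ^ 2|) :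
    Q ^ 8 ≤ ((s + t) / (u - v)) ^ 2 - u - v := by
  have hQ0 : 0 < Q := by linarith
  have hd0 : u - v ≠ 0 := sub_ne_zero.mpr hne
  have hd2 : 0 < (u - v) ^ 2 := by positivity
  have hd : (u - v) ^ 2 * Q ^ 32 ≤ 1 := by
    have h1 : (|u - v| * Q ^ 16) ^ 2 ≤ 1 := by
      have h2 : 0 ≤ |u - v| * Q ^ 16 := by positivity
      exact pow_le_one₀ h2 huv
    have h3 : (|u - v| * Q ^ 16) ^ 2 = (u - v) ^ 2 * Q ^ 32 := by
      rw [mul_pow, sq_abs]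
      ring
    rw [← h3]
    exact h1
  have hu' := abs_le.mp hu
  have hv' := abs_le.mp hv
  have hα' := abs_le.mp hα
  have hβ' := abs_le.mp hβ
  -- it is enough to bound the square of the slope
  suffices h : 2 * Q ^ 8 ≤ ((s + t) / (u - v)) ^ 2 by
    have h1 : 2 * Q ≤ Q ^ 8 := by
      have h2 : (10 : ℝ) ^ 7 ≤ Q ^ 7 := pow_le_pow_left₀ (by norm_num) hQ 7
      have h3 : Q ^ 8 = Q ^ 7 * Q := by ring
      rw [h3]
      apply mul_le_mul_of_nonneg_right _ hQ0.le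
      norm_num at h2
      linarith
    linarith [hu'.2, hv'.2]
  rw [div_pow, le_div_iff₀ hd2]
  by_cases hA : 1 ≤ s ^ 2 * Q ^ 16 ∨ 1 ≤ t ^ 2 * Q ^ 16
  · -- Case A
    have h1 : 1 ≤ (s + t) ^ 2 * Q ^ 16 := by
      have hQ16 : 0 < Q ^ 16 := by positivity
      rcases hA with h | h
      · refine h.trans (mul_le_mul_of_nonneg_right ?_ hQ16.le)
        nlinarith [sq_nonneg t]
      · refine h.trans (mul_le_mul_of_nonneg_right ?_ hQ16.le)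
        nlinarith [sq_nonneg s]
    have h2 : (10 : ℝ) ^ 8 ≤ Q ^ 8 := pow_le_pow_left₀ (by norm_num) hQ 8
    have h3 : (0 : ℝ) < Q ^ 8 := by positivity
    -- multiply by `Q ^ 32`
    have h4 : 2 * Q ^ 8 * (u - v) ^ 2 * Q ^ 32 ≤ (s + t) ^ 2 * Q ^ 32 := by
      calc 2 * Q ^ 8 * (u - v) ^ 2 * Q ^ 32 = 2 * Q ^ 8 * ((u - v) ^ 2 * Q ^ 32) := by ring
        _ ≤ 2 * Q ^ 8 * 1 := mul_le_mul_of_nonneg_left hd (by positivity)
        _ ≤ Q ^ 8 * Q ^ 8 := by nlinarith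
        _ = 1 * Q ^ 16 := by ring
        _ ≤ ((s + t) ^ 2 * Q ^ 16) * Q ^ 16 := mul_le_mul_of_nonneg_right h1 (by positivity)
        _ = (s + t) ^ 2 * Q ^ 32 := by ring
    exact le_of_mul_le_mul_right h4 (by positivity)
  · -- Case B
    push Not at hA
    obtain ⟨hA1, hA2⟩ := hA
    have hQ2 : 100 ≤ Q ^ 2 := by nlinarith
    have hQ3 : 1000 ≤ Q ^ 3 := by
      have : (10 : ℝ) ^ 3 ≤ Q ^ 3 := pow_le_pow_left₀ (by norm_num) hQ 3
      norm_num at this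
      exact this
    have hu2 : u ^ 2 ≤ Q ^ 2 := by
      rw [← sq_abs u]
      exact pow_le_pow_left₀ (abs_nonneg _) hu 2
    have hu3 : |u ^ 3| ≤ Q ^ 3 := by
      rw [abs_pow]
      exact pow_le_pow_left₀ (abs_nonneg _) hu 3
    have hαu : |α * u| ≤ Q := by
      rw [abs_mul]
      calc |α| * |u| ≤ 1 * Q := mul_le_mul hα hu (abs_nonneg _) (by norm_num)
        _ = Q := one_mul _
    have hQQ3 : Q ≤ Q ^ 3 := by nlinarith
    -- the bound of the discriminant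
    have e : 4 * α ^ 3 + 27 * β ^ 2 =
        (3 * u ^ 2 + 4 * α) * (3 * u ^ 2 + α) ^ 2 - 27 * (u ^ 3 + α * u - β) * s ^ 2 := by
      rw [hs]
      ring
    have b1 : |3 * u ^ 2 + 4 * α| ≤ 7 * Q ^ 2 := by
      rw [abs_le]
      constructor <;> nlinarith [sq_nonneg u]
    have b2 : |u ^ 3 + α * u - β| ≤ 3 * Q ^ 3 := by
      have h3 := abs_le.mp hu3
      have h4 := abs_le.mp hαu
      rw [abs_le]
      constructor <;> linarith [h3.1, h3.2, h4.1, h4.2, hβ'.1, hβ'.2]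
    have b3 : |4 * α ^ 3 + 27 * β ^ 2| ≤
        7 * Q ^ 2 * (3 * u ^ 2 + α) ^ 2 + 81 * Q ^ 3 * s ^ 2 := by
      rw [e]
      refine (abs_sub _ _).trans (add_le_add ?_ ?_)
      · have h0 : |(3 * u ^ 2 + α) ^ 2| = (3 * u ^ 2 + α) ^ 2 := abs_of_nonneg (sq_nonneg _)
        rw [abs_mul, h0]
        exact mul_le_mul_of_nonneg_right b1 (sq_nonneg _)
      · have h0 : |s ^ 2| = s ^ 2 := abs_of_nonneg (sq_nonneg _)
        have h27 : |(27 : ℝ)| = 27 := abs_of_pos (by norm_num)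
        rw [abs_mul, abs_mul, h0, h27]
        have h1 : 27 * |u ^ 3 + α * u - β| ≤ 81 * Q ^ 3 := by linarith
        exact mul_le_mul_of_nonneg_right h1 (sq_nonneg s)
    have b4 : 1 / (100 * Q ^ 2) ≤
        7 * Q ^ 2 * (3 * u ^ 2 + α) ^ 2 + 81 * Q ^ 3 * s ^ 2 := hD.trans b3
    -- multiply by `Q ^ 2`
    have b5 : 1 / 100 ≤ 7 * Q ^ 4 * (3 * u ^ 2 + α) ^ 2 + 81 * Q ^ 5 * s ^ 2 := by
      have h1 := mul_le_mul_of_nonneg_right b4 (by positivity : 0 ≤ Q ^ 2)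
      have h2 : 1 / (100 * Q ^ 2) * Q ^ 2 = 1 / 100 := by
        field_simp
      rw [h2] at h1
      calc 1 / 100 ≤ (7 * Q ^ 2 * (3 * u ^ 2 + α) ^ 2 + 81 * Q ^ 3 * s ^ 2) * Q ^ 2 := h1
        _ = _ := by ring
    have b6 : 81 * Q ^ 5 * s ^ 2 ≤ 1 / 1000 := by
      have h1 : (10 : ℝ) ^ 11 ≤ Q ^ 11 := pow_le_pow_left₀ (by norm_num) hQ 11
      have h2 : s ^ 2 * Q ^ 5 * 10 ^ 11 ≤ 1 := by
        calc s ^ 2 * Q ^ 5 * 10 ^ 11 ≤ s ^ 2 * Q ^ 5 * Q ^ 11 :=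
              mul_le_mul_of_nonneg_left h1 (by positivity)
          _ = s ^ 2 * Q ^ 16 := by ring
          _ ≤ 1 := hA1.le
      linarith
    have b7 : 1 / 900 ≤ Q ^ 4 * (3 * u ^ 2 + α) ^ 2 := by linarith
    have b8 : 1 / 30 ≤ |Q ^ 2 * (3 * u ^ 2 + α)| := by
      apply abs_le_of_sq_le_sq' _ (abs_nonneg _) |>.2
      rw [sq_abs]
      calc (1 / 30 : ℝ) ^ 2 = 1 / 900 := by norm_num
        _ ≤ Q ^ 4 * (3 * u ^ 2 + α) ^ 2 := b7
        _ = _ := by ring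
    -- the quotient of differences
    set N : ℝ := u ^ 2 + u * v + v ^ 2 + α with hN
    have hfac : (s + t) * (s - t) = (u - v) * N := by
      rw [hN]
      linear_combination hs - ht
    have b9 : |Q ^ 2 * (3 * u ^ 2 + α) - Q ^ 2 * N| ≤ 1 / 1000 := by
      have h1 : Q ^ 2 * (3 * u ^ 2 + α) - Q ^ 2 * N = (u - v) * (Q ^ 2 * (2 * u + v)) := by
        rw [hN]
        ring
      rw [h1, abs_mul, abs_mul, abs_of_pos (by positivity : 0 < Q ^ 2)]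
      have h2 : |2 * u + v| ≤ 3 * Q := by
        rw [abs_le]
        constructor <;> linarith [hu'.1, hu'.2, hv'.1, hv'.2]
      have h3 : (10 : ℝ) ^ 13 ≤ Q ^ 13 := pow_le_pow_left₀ (by norm_num) hQ 13
      have h4 : |u - v| * (Q ^ 2 * |2 * u + v|) ≤ |u - v| * (3 * Q ^ 3) := by
        apply mul_le_mul_of_nonneg_left _ (abs_nonneg _)
        calc Q ^ 2 * |2 * u + v| ≤ Q ^ 2 * (3 * Q) := mul_le_mul_of_nonneg_left h2 (by positivity)
          _ = 3 * Q ^ 3 := by ring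
      have h5 : |u - v| * Q ^ 3 * 10 ^ 13 ≤ 1 := by
        calc |u - v| * Q ^ 3 * 10 ^ 13 ≤ |u - v| * Q ^ 3 * Q ^ 13 :=
              mul_le_mul_of_nonneg_left h3 (by positivity)
          _ = |u - v| * Q ^ 16 := by ring
          _ ≤ 1 := huv
      refine h4.trans ?_
      have h6 : |u - v| * (3 * Q ^ 3) = 3 * (|u - v| * Q ^ 3) := by ring
      rw [h6]
      linarith
    have b10 : 1 / 40 ≤ |Q ^ 2 * N| := by
      have h1 := abs_sub_abs_le_abs_sub (Q ^ 2 * (3 * u ^ 2 + α)) (Q ^ 2 * N)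
      linarith
    have b11 : 1 / 1600 ≤ Q ^ 4 * N ^ 2 := by
      have h1 : (1 / 40 : ℝ) ^ 2 ≤ |Q ^ 2 * N| ^ 2 := pow_le_pow_left₀ (by norm_num) b10 2
      rw [sq_abs] at h1
      calc (1 / 1600 : ℝ) = (1 / 40) ^ 2 := by norm_num
        _ ≤ (Q ^ 2 * N) ^ 2 := h1
        _ = _ := by ring
    have b12 : (s - t) ^ 2 * Q ^ 16 ≤ 2 := by
      have h1 : (s - t) ^ 2 ≤ s ^ 2 + t ^ 2 := by nlinarith
      calc (s - t) ^ 2 * Q ^ 16 ≤ (s ^ 2 + t ^ 2) * Q ^ 16 :=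
            mul_le_mul_of_nonneg_right h1 (by positivity)
        _ = s ^ 2 * Q ^ 16 + t ^ 2 * Q ^ 16 := by ring
        _ ≤ 2 := by linarith
    -- the conclusion
    have hQ4 : (10 : ℝ) ^ 4 ≤ Q ^ 4 := pow_le_pow_left₀ (by norm_num) hQ 4
    have c1 : (u - v) ^ 2 * N ^ 2 = (s + t) ^ 2 * (s - t) ^ 2 := by
      calc (u - v) ^ 2 * N ^ 2 = ((u - v) * N) ^ 2 := by ring
        _ = ((s + t) * (s - t)) ^ 2 := by rw [hfac]
        _ = _ := by ring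
    have c2 : (u - v) ^ 2 / 1600 ≤ (s + t) ^ 2 * ((s - t) ^ 2 * Q ^ 4) := by
      calc (u - v) ^ 2 / 1600 = (u - v) ^ 2 * (1 / 1600) := by ring
        _ ≤ (u - v) ^ 2 * (Q ^ 4 * N ^ 2) := mul_le_mul_of_nonneg_left b11 hd2.le
        _ = ((u - v) ^ 2 * N ^ 2) * Q ^ 4 := by ring
        _ = ((s + t) ^ 2 * (s - t) ^ 2) * Q ^ 4 := by rw [c1]
        _ = _ := by ring
    have c3 : (u - v) ^ 2 / 1600 * Q ^ 12 ≤ 2 * (s + t) ^ 2 := by
      calc (u - v) ^ 2 / 1600 * Q ^ 12 ≤ (s + t) ^ 2 * ((s - t) ^ 2 * Q ^ 4) * Q ^ 12 :=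
            mul_le_mul_of_nonneg_right c2 (by positivity)
        _ = (s + t) ^ 2 * ((s - t) ^ 2 * Q ^ 16) := by ring
        _ ≤ (s + t) ^ 2 * 2 := mul_le_mul_of_nonneg_left b12 (sq_nonneg _)
        _ = _ := by ring
    have c4 : 10 ^ 4 * (Q ^ 8 * (u - v) ^ 2) ≤ Q ^ 12 * (u - v) ^ 2 := by
      calc 10 ^ 4 * (Q ^ 8 * (u - v) ^ 2) ≤ Q ^ 4 * (Q ^ 8 * (u - v) ^ 2) :=
            mul_le_mul_of_nonneg_right hQ4 (by positivity)
        _ = _ := by ring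
    have c5 : (u - v) ^ 2 / 1600 * Q ^ 12 = Q ^ 12 * (u - v) ^ 2 / 1600 := by ring
    rw [c5] at c3
    nlinarith [c3, c4]

end Pool.Agent.H24.LW.ArchS
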