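import Pool.Agent.H24.LW.Region
import Pool.Agent.H24.LW.ArchA
import Pool.Agent.H24.LW.ArchB
import Pool.Agent.H24.LW.ModQ
import Pool.Agent.H24.LR.MainZ

/-!
# Integral points in short ranges: the assembly
-/

namespace Pool.Agent.H24.LW

open Pool.Agent.H24.LP Pool.Agent.H24.LQ Pool.Agent.H24.LR Finset

/-- `max(1, L/γ)^(1+r/2)`. -/
noncomputable def Bd (a b : ℤ) (r : ℕ) (γ : ℝ) : ℝ := (max 1 (L a b / γ)) ^ (1 + (r : ℝ) / 2)

lemma one_le_Bd (a b : ℤ) (r : ℕ) (γ : ℝ) : 1 ≤ Bd a b r γ :=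
  Real.one_le_rpow (le_max_left _ _) (by positivity)

lemma Bd_scale {a b : ℤ} {r : ℕ} {γ k δ : ℝ} (hγ : 0 < γ) (hk : 1 ≤ k) (hδ : γ / k ≤ δ) :
    Bd a b r δ ≤ k ^ (1 + r) * Bd a b r γ := by
  have hL := L_pos a b
  have hk0 : 0 < k := by linarith
  have hδ0 : 0 < δ := lt_of_lt_of_le (by positivity) hδ
  have h1 : max 1 (L a b / δ) ≤ k * max 1 (L a b / γ) := by
    refine max_le ?_ ?_
    · calc (1 : ℝ) = 1 * 1 := (one_mul 1).symm
        _ ≤ k * max 1 (L a b / γ) := by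
          gcongr
          exact le_max_left _ _
    · calc L a b / δ ≤ L a b / (γ / k) := by gcongr
        _ = k * (L a b / γ) := by field_simp
        _ ≤ k * max 1 (L a b / γ) := by
          gcongr
          exact le_max_right _ _
  have hm0 : (0 : ℝ) ≤ max 1 (L a b / γ) := le_trans zero_le_one (le_max_left _ _)
  calc Bd a b r δ ≤ (k * max 1 (L a b / γ)) ^ (1 + (r : ℝ) / 2) :=
        Real.rpow_le_rpow (le_trans zero_le_one (le_max_left _ _)) h1 (by positivity)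
    _ = k ^ (1 + (r : ℝ) / 2) * Bd a b r γ := Real.mul_rpow hk0.le hm0
    _ ≤ k ^ (1 + r) * Bd a b r γ := by
        have h2 : k ^ (1 + (r : ℝ) / 2) ≤ k ^ (1 + r) := by
          rw [← Real.rpow_natCast]
          refine Real.rpow_le_rpow_of_exponent_le hk ?_
          push_cast
          have : (0 : ℝ) ≤ r := Nat.cast_nonneg r
          linarith
        exact mul_le_mul_of_nonneg_right h2 (le_trans zero_le_one (one_le_Bd _ _ _ _))

lemma pow_sum3 {x y z : ℝ} (hx : 0 ≤ x) (hy : 0 ≤ y) (hz : 0 ≤ z) (r : ℕ) :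
    x ^ (1 + r) + y ^ (1 + r) + z ^ (1 + r) ≤ (x + y + z) ^ (1 + r) := by
  have h1 := pow_add_pow_le hx hy (n := 1 + r) (by omega)
  have h2 := pow_add_pow_le (add_nonneg hx hy) hz (n := 1 + r) (by omega)
  linarith

lemma sign_inj {a b : ℤ} {z z' : ℤ × ℤ} (hz : z ∈ integralPoints a b)
    (hz' : z' ∈ integralPoints a b) (h : z.1 = z'.1)
    (hs : (0 ≤ z.2 ∧ 0 ≤ z'.2) ∨ (z.2 < 0 ∧ z'.2 < 0)) : z = z' := by
  have h1 : z.2 ^ 2 = z.1 ^ 3 + a * z.1 + b := hz
  have h2 : z'.2 ^ 2 = z'.1 ^ 3 + a * z'.1 + b := hz'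
  rw [← h, ← h1] at h2
  refine Prod.ext h ?_
  rcases hs with ⟨h3, h4⟩ | ⟨h3, h4⟩ <;> nlinarith

/-- The count for integral points which are pairwise close at infinity or modulo `q`. -/
theorem count_split : ∃ C : ℝ, 1 ≤ C ∧ ∀ (a b : ℤ) (hD : D a b ≠ 0) (r : ℕ),
    Module.rank ℤ (curve a b).Point ≤ r → ∀ (γ : ℝ) (q : ℕ), 0 ≤ γ → 0 < q →
    Nat.Coprime q (6 * D a b).natAbs → C ≤ γ + Real.log q →
    ∀ S : Finset (ℤ × ℤ), (∀ z ∈ S, z ∈ integralPoints a b) →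
    (∀ z ∈ S, ∀ z' ∈ S, z.1 ≠ z'.1 → 0 ≤ z.2 * z'.2 →
      (q : ℤ) ∣ repZ (LR.toPt hD z - LR.toPt hD z') ∧
      (γ = 0 ∨ Real.exp (L a b + γ) * |(repZ (LR.toPt hD z - LR.toPt hD z') : ℝ)| ≤
        |(repX (LR.toPt hD z - LR.toPt hD z') : ℝ)|)) →
    (S.card : ℝ) ≤ C ^ (1 + r) * Bd a b r (γ + Real.log q) := by
  classical
  obtain ⟨C₁, hC₁, hreg⟩ := region
  obtain ⟨C₂, hC₂, hlarge⟩ := large_count
  refine ⟨C₁ + C₁ + C₂, by linarith, fun a b hD r hr γ q hγ hq hcop hΓ S hS hST => ?_⟩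
  set P : ℤ × ℤ → Prop := fun z => |(z.1 : ℝ)| ≤ Real.exp (100 * L a b) with hP
  have h1 := hreg a b hD r hr γ q hγ hq hcop (by linarith) (S.filter fun z => P z ∧ 0 ≤ z.2)
    (fun z hz => by
      have := Finset.mem_filter.mp hz
      exact ⟨hS z this.1, this.2.1⟩)
    (fun z hz z' hz' hne => by
      have h := Finset.mem_filter.mp hz
      have h' := Finset.mem_filter.mp hz'
      refine hST z h.1 z' h'.1 (fun hx => hne ?_) (mul_nonneg h.2.2 h'.2.2)
      exact sign_inj (hS z h.1) (hS z' h'.1) hx (Or.inl ⟨h.2.2, h'.2.2⟩))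
  have h2 := hreg a b hD r hr γ q hγ hq hcop (by linarith) (S.filter fun z => P z ∧ z.2 < 0)
    (fun z hz => by
      have := Finset.mem_filter.mp hz
      exact ⟨hS z this.1, this.2.1⟩)
    (fun z hz z' hz' hne => by
      have h := Finset.mem_filter.mp hz
      have h' := Finset.mem_filter.mp hz'
      refine hST z h.1 z' h'.1 (fun hx => hne ?_)
        (mul_nonneg_of_nonpos_of_nonpos h.2.2.le h'.2.2.le)
      exact sign_inj (hS z h.1) (hS z' h'.1) hx (Or.inr ⟨h.2.2, h'.2.2⟩))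
  have h3 := hlarge a b hD r hr (S.filter fun z => ¬ P z) (fun z hz => by
    have hz' := Finset.mem_filter.mp hz
    refine ⟨hS z hz'.1, ?_⟩
    have h3 := not_le.mp hz'.2
    have hpos : 0 < |(z.1 : ℝ)| := (Real.exp_pos _).trans h3
    rw [Real.le_log_iff_exp_le hpos]
    exact h3.le)
  have hcov : S ⊆ ((S.filter fun z => P z ∧ 0 ≤ z.2) ∪ (S.filter fun z => P z ∧ z.2 < 0)) ∪
      (S.filter fun z => ¬ P z) := by
    intro z hz
    simp only [Finset.mem_union, Finset.mem_filter]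
    by_cases hp : P z
    · rcases le_or_gt 0 z.2 with h | h
      · exact Or.inl (Or.inl ⟨hz, hp, h⟩)
      · exact Or.inl (Or.inr ⟨hz, hp, h⟩)
    · exact Or.inr ⟨hz, hp⟩
  have hcard : (S.card : ℝ) ≤ ((S.filter fun z => P z ∧ 0 ≤ z.2).card : ℝ) +
      ((S.filter fun z => P z ∧ z.2 < 0).card : ℝ) + ((S.filter fun z => ¬ P z).card : ℝ) := by
    have h4 := (Finset.card_le_card hcov).trans (Finset.card_union_le _ _)
    have h5 := Finset.card_union_le (S.filter fun z => P z ∧ 0 ≤ z.2)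
      (S.filter fun z => P z ∧ z.2 < 0)
    have h6 : S.card ≤ (S.filter fun z => P z ∧ 0 ≤ z.2).card +
      (S.filter fun z => P z ∧ z.2 < 0).card + (S.filter fun z => ¬ P z).card := by omega
    exact_mod_cast h6
  set M : ℝ := Bd a b r (γ + Real.log q) with hM
  have hM1 : 1 ≤ M := one_le_Bd _ _ _ _
  have h3' : ((S.filter fun z => ¬ P z).card : ℝ) ≤ C₂ ^ (1 + r) * M := by
    refine h3.trans (le_mul_of_one_le_right (by positivity) hM1)
  have h7 := pow_sum3 (x := C₁) (y := C₁) (z := C₂) (by linarith) (by linarith) (by linarith) r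
  calc (S.card : ℝ) ≤ C₁ ^ (1 + r) * M + C₁ ^ (1 + r) * M + C₂ ^ (1 + r) * M := by
        refine hcard.trans (add_le_add (add_le_add h1 h2) h3')
    _ = (C₁ ^ (1 + r) + C₁ ^ (1 + r) + C₂ ^ (1 + r)) * M := by ring
    _ ≤ (C₁ + C₁ + C₂) ^ (1 + r) * M := mul_le_mul_of_nonneg_right h7 (by linarith)

/-- Large abscissas. -/
theorem far_count : ∃ C : ℝ, 1 ≤ C ∧ ∀ (a b : ℤ), D a b ≠ 0 → ∀ (r : ℕ),
    Module.rank ℤ (curve a b).Point ≤ r → ∀ γ : ℝ, C ≤ γ →
    ∀ S : Finset (ℤ × ℤ), (∀ z ∈ S, z ∈ integralPoints a b ∧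
      L a b + γ ≤ Real.log |(z.1 : ℝ)|) →
    (S.card : ℝ) ≤ C ^ (1 + r) * Bd a b r γ := by
  obtain ⟨C₁, hC₁, hsp⟩ := count_split
  obtain ⟨K, hK, harch⟩ := arch_large
  refine ⟨2 * C₁ + K, by linarith, fun a b hD r hr γ hγ S hS => ?_⟩
  have h1 := hsp a b hD r hr (γ / 2) 1 (by linarith) one_pos (Nat.coprime_one_left _)
    (by rw [Nat.cast_one, Real.log_one]; linarith) S (fun z hz => (hS z hz).1)
    (fun z hz z' hz' hne _ => ⟨by simp, Or.inr
      (harch a b hD γ (by linarith) z (hS z hz).1 z' (hS z' hz').1 hne (hS z hz).2 (hS z' hz').2)⟩)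
  rw [Nat.cast_one, Real.log_one, add_zero] at h1
  have h2 := Bd_scale (a := a) (b := b) (r := r) (γ := γ) (k := 2) (δ := γ / 2) (by linarith)
    (by norm_num) le_rfl
  have hM := one_le_Bd a b r γ
  calc (S.card : ℝ) ≤ C₁ ^ (1 + r) * (2 ^ (1 + r) * Bd a b r γ) := by
        refine h1.trans (mul_le_mul_of_nonneg_left h2 (by positivity))
    _ = (2 * C₁) ^ (1 + r) * Bd a b r γ := by rw [mul_pow]; ring
    _ ≤ (2 * C₁ + K) ^ (1 + r) * Bd a b r γ := by
        refine mul_le_mul_of_nonneg_right ?_ (by linarith)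
        gcongr
        linarith

/-- Close abscissas. -/
theorem short_count : ∃ C : ℝ, 1 ≤ C ∧ ∀ (a b : ℤ), D a b ≠ 0 → ∀ (r : ℕ),
    Module.rank ℤ (curve a b).Point ≤ r → ∀ γ : ℝ, C ≤ γ → wInf a b ≤ γ / 8 →
    ∀ S : Finset (ℤ × ℤ), (∀ z ∈ S, z ∈ integralPoints a b) →
    (∀ z ∈ S, ∀ z' ∈ S, |(z.1 : ℝ) - z'.1| ≤ Real.exp (L a b - γ)) →
    (S.card : ℝ) ≤ C ^ (1 + r) * Bd a b r γ := by
  classical
  obtain ⟨C₁, hC₁, hsp⟩ := count_split
  obtain ⟨C₂, hC₂, hfar⟩ := far_count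
  obtain ⟨K, hK, harch⟩ := arch_short
  refine ⟨2 * C₁ + 16 * C₂ + K, by linarith, fun a b hD r hr γ hγ hw S hS hSS => ?_⟩
  have hγ0 : 0 < γ := by linarith
  set P : ℤ × ℤ → Prop := fun z => |(z.1 : ℝ)| ≤ Real.exp (L a b + γ / 16) with hP
  have h1 := hsp a b hD r hr (γ / 2) 1 (by linarith) one_pos (Nat.coprime_one_left _)
    (by rw [Nat.cast_one, Real.log_one]; linarith) (S.filter P)
    (fun z hz => hS z (Finset.mem_filter.mp hz).1)
    (fun z hz z' hz' hne hs => ⟨by simp, Or.inr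
      (harch a b hD γ (by linarith) hw z (hS z (Finset.mem_filter.mp hz).1) z'
        (hS z' (Finset.mem_filter.mp hz').1) hne hs (Finset.mem_filter.mp hz).2
        (Finset.mem_filter.mp hz').2
        (hSS z (Finset.mem_filter.mp hz).1 z' (Finset.mem_filter.mp hz').1))⟩)
  rw [Nat.cast_one, Real.log_one, add_zero] at h1
  have h2 := hfar a b hD r hr (γ / 16) (by linarith) (S.filter fun z => ¬ P z) (fun z hz => by
    have hz' := Finset.mem_filter.mp hz
    refine ⟨hS z hz'.1, ?_⟩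
    have h3 := not_le.mp hz'.2
    have hpos : 0 < |(z.1 : ℝ)| := (Real.exp_pos _).trans h3
    rw [Real.le_log_iff_exp_le hpos]
    exact h3.le)
  have h3 := Bd_scale (a := a) (b := b) (r := r) (γ := γ) (k := 2) (δ := γ / 2) hγ0
    (by norm_num) le_rfl
  have h4 := Bd_scale (a := a) (b := b) (r := r) (γ := γ) (k := 16) (δ := γ / 16) hγ0
    (by norm_num) le_rfl
  have h5 := Finset.card_filter_add_card_filter_not (s := S) P
  have h6 : (S.card : ℝ) = ((S.filter P).card : ℝ) + ((S.filter fun z => ¬ P z).card : ℝ) := by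
    exact_mod_cast h5.symm
  set M : ℝ := Bd a b r γ with hM
  have hM1 : 1 ≤ M := one_le_Bd a b r γ
  have h7 := pow_sum3 (x := 2 * C₁) (y := 16 * C₂) (z := K) (by linarith) (by linarith)
    (by linarith) r
  have hKp : (0 : ℝ) ≤ K ^ (1 + r) := by positivity
  calc (S.card : ℝ) ≤ C₁ ^ (1 + r) * (2 ^ (1 + r) * M) + C₂ ^ (1 + r) * (16 ^ (1 + r) * M) := by
        rw [h6]
        exact add_le_add (h1.trans (mul_le_mul_of_nonneg_left h3 (by positivity)))
          (h2.trans (mul_le_mul_of_nonneg_left h4 (by positivity)))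
    _ = ((2 * C₁) ^ (1 + r) + (16 * C₂) ^ (1 + r)) * M := by rw [mul_pow, mul_pow]; ring
    _ ≤ (2 * C₁ + 16 * C₂ + K) ^ (1 + r) * M := by
        refine mul_le_mul_of_nonneg_right ?_ (by linarith)
        linarith

/-- Congruent points. -/
theorem cong_count : ∃ C : ℝ, 1 ≤ C ∧ ∀ (a b : ℤ), D a b ≠ 0 → ∀ (r : ℕ),
    Module.rank ℤ (curve a b).Point ≤ r → ∀ q : ℕ, 0 < q →
    Nat.Coprime q (6 * D a b).natAbs → C ≤ Real.log q →
    ∀ S : Finset (ℤ × ℤ), (∀ z ∈ S, z ∈ integralPoints a b) →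
    (∀ z ∈ S, ∀ z' ∈ S, (q : ℤ) ∣ z.1 - z'.1 ∧ (q : ℤ) ∣ z.2 - z'.2) →
    (S.card : ℝ) ≤ C ^ (1 + r) * Bd a b r (Real.log q) := by
  obtain ⟨C₁, hC₁, hsp⟩ := count_split
  refine ⟨C₁, hC₁, fun a b hD r hr q hq hcop hlog S hS hSS => ?_⟩
  have h1 := hsp a b hD r hr 0 q le_rfl hq hcop (by rw [zero_add]; exact hlog) S hS
    (fun z hz z' hz' hne _ => ⟨mod_q hD hq hcop (hS z hz) (hS z' hz') hne (hSS z hz z' hz').1
      (hSS z hz z' hz').2, Or.inl rfl⟩)
  rwa [zero_add] at h1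

/-- The bound for all integral points if `γ` is bounded or small compared with `log⁺ |j|`. -/
theorem all_count : ∃ C : ℝ, 1 ≤ C ∧ ∀ (a b : ℤ), QuasiMinimal a b → ∀ (r : ℕ),
    Module.rank ℤ (curve a b).Point ≤ r → ∀ γ : ℝ, 0 < γ → γ ≤ 8 * (1 + wInf a b) →
    (integralPoints a b).Finite ∧
    ((integralPoints a b).ncard : ℝ) ≤ C ^ (1 + r) * Bd a b r γ := by
  obtain ⟨C₁, hC₁, hT⟩ := main_T
  refine ⟨8 * C₁, by linarith, fun a b hq r hr γ hγ hγw => ?_⟩
  obtain ⟨hf, h1⟩ := hT a b hq r hr ∅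
  refine ⟨hf, h1.trans ?_⟩
  obtain ⟨g1, g2, g3⟩ := GT_terms a b ∅
  have hL := L_pos a b
  have hw := HeightData.wInf_nonneg (a := a) (b := b)
  have hG : 1 + wInf a b ≤ GT a b ∅ := by
    unfold GT
    linarith
  have hG0 : 0 < GT a b ∅ := by linarith
  have h2 := Bd_scale (a := a) (b := b) (r := r) (γ := γ) (k := 8) (δ := GT a b ∅) hγ
    (by norm_num) (by linarith)
  have h3 : (L a b / GT a b ∅) ^ (1 + (r : ℝ) / 2) ≤ Bd a b r (GT a b ∅) :=
    Real.rpow_le_rpow (by positivity) (le_max_right _ _) (by positivity)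
  calc C₁ ^ (1 + r + (∅ : Finset ℕ).card) * (L a b / GT a b ∅) ^ (1 + (r : ℝ) / 2)
      ≤ C₁ ^ (1 + r) * (8 ^ (1 + r) * Bd a b r γ) := by
        rw [Finset.card_empty, add_zero]
        exact mul_le_mul_of_nonneg_left (h3.trans h2) (by positivity)
    _ = (8 * C₁) ^ (1 + r) * Bd a b r γ := by rw [mul_pow]; ring

/-- The same for bounded `γ`. -/
theorem all_count' {K : ℝ} (hK : 1 ≤ K) : ∃ C : ℝ, 1 ≤ C ∧ ∀ (a b : ℤ), QuasiMinimal a b →
    ∀ (r : ℕ), Module.rank ℤ (curve a b).Point ≤ r → ∀ γ : ℝ, 0 < γ → γ ≤ K →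
    (integralPoints a b).Finite ∧
    ((integralPoints a b).ncard : ℝ) ≤ C ^ (1 + r) * Bd a b r γ := by
  obtain ⟨C₁, hC₁, hT⟩ := all_count
  refine ⟨K * C₁, by nlinarith, fun a b hq r hr γ hγ hγK => ?_⟩
  have hw := HeightData.wInf_nonneg (a := a) (b := b)
  obtain ⟨hf, h1⟩ := hT a b hq r hr 1 one_pos (by linarith)
  refine ⟨hf, h1.trans ?_⟩
  have h2 := Bd_scale (a := a) (b := b) (r := r) (γ := γ) (k := K) (δ := 1) hγ hK
    (by rw [div_le_one (by linarith)]; exact hγK)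
  calc C₁ ^ (1 + r) * Bd a b r 1 ≤ C₁ ^ (1 + r) * (K ^ (1 + r) * Bd a b r γ) :=
        mul_le_mul_of_nonneg_left h2 (by positivity)
    _ = (K * C₁) ^ (1 + r) * Bd a b r γ := by rw [mul_pow]; ring

/-- A subset of `E(ℤ)`. -/
lemma ncard_of_all {a b : ℤ} {B : ℝ} {p : ℤ × ℤ → Prop} (hf : (integralPoints a b).Finite)
    (h : ((integralPoints a b).ncard : ℝ) ≤ B) :
    (({z | z ∈ integralPoints a b ∧ p z} : Set (ℤ × ℤ)).ncard : ℝ) ≤ B := by
  refine le_trans ?_ h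
  have hsub : ({z | z ∈ integralPoints a b ∧ p z} : Set (ℤ × ℤ)) ⊆ integralPoints a b :=
    fun z hz => hz.1
  exact_mod_cast Set.ncard_le_ncard hsub hf

/-- A bound for the finite subsets gives a bound for the cardinality. -/
lemma ncard_of_finset {X : Set (ℤ × ℤ)} {B : ℝ} (hB : 0 ≤ B)
    (h : ∀ s : Finset (ℤ × ℤ), (s : Set (ℤ × ℤ)) ⊆ X → (s.card : ℝ) ≤ B) : (X.ncard : ℝ) ≤ B := by
  have h1 := finite_of_card_le (X := X) (N := ⌊B⌋₊) (fun s hs => by
    rw [Nat.le_floor_iff hB]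
    exact h s hs)
  exact (Nat.le_floor_iff hB).mp h1.2

/-- Integral points in short ranges. -/
theorem main : ∃ C : ℝ, 1 ≤ C ∧ ∀ a b : ℤ, QuasiMinimal a b →
    ∀ r : ℕ, Module.rank ℤ (curve a b).Point ≤ r →
    (∀ γ : ℝ, 0 < γ →
      (({z | z ∈ integralPoints a b ∧ Real.exp (L a b + γ) ≤ |(z.1 : ℝ)|} :
        Set (ℤ × ℤ)).ncard : ℝ) ≤ C ^ (1 + r) * Bd a b r γ) ∧
    (∀ γ : ℝ, 0 < γ → ∀ x₀ : ℝ,
      (({z | z ∈ integralPoints a b ∧ |(z.1 : ℝ) - x₀| ≤ Real.exp (L a b - γ)} :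
        Set (ℤ × ℤ)).ncard : ℝ) ≤ C ^ (1 + r) * Bd a b r γ) ∧
    (∀ q : ℕ, 1 < q → Nat.Coprime q (6 * D a b).natAbs → ∀ u : ℤ × ℤ,
      (({z | z ∈ integralPoints a b ∧ ((q : ℤ) ∣ z.1 - u.1 ∧ (q : ℤ) ∣ z.2 - u.2)} :
        Set (ℤ × ℤ)).ncard : ℝ) ≤ C ^ (1 + r) * Bd a b r (Real.log q)) := by
  classical
  obtain ⟨C₁, hC₁, hfar⟩ := far_count
  obtain ⟨C₂, hC₂, hshort⟩ := short_count
  obtain ⟨C₃, hC₃, hcong⟩ := cong_count
  obtain ⟨C₄, hC₄, hall⟩ := all_count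
  obtain ⟨C₅, hC₅, hall'⟩ := all_count' (K := C₁ + 2 * C₂ + C₃) (by linarith)
  set C : ℝ := C₁ + 2 * C₂ + C₃ + 2 * C₄ + C₅ with hC
  have hmono : ∀ {x : ℝ} (a b : ℤ) (r : ℕ) (γ : ℝ), 0 ≤ x → x ≤ C →
      x ^ (1 + r) * Bd a b r γ ≤ C ^ (1 + r) * Bd a b r γ := by
    intro x a b r γ hx hxC
    have := one_le_Bd a b r γ
    gcongr
  refine ⟨C, by linarith, fun a b hq r hr => ⟨fun γ hγ => ?_, fun γ hγ x₀ => ?_,
    fun q hq1 hcop u => ?_⟩⟩
  · have hB := one_le_Bd a b r γ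
    rcases le_total γ (C₁ + 2 * C₂ + C₃) with h | h
    · obtain ⟨hf, h1⟩ := hall' a b hq r hr γ hγ h
      exact (ncard_of_all hf h1).trans (hmono a b r γ (by linarith) (by linarith))
    · refine ncard_of_finset (by positivity) fun s hs => ?_
      refine (hfar a b hq.ne r hr γ (by linarith) s fun z hz => ?_).trans
        (hmono a b r γ (by linarith) (by linarith))
      have hz' := hs hz
      refine ⟨hz'.1, ?_⟩
      have hpos : 0 < |(z.1 : ℝ)| := (Real.exp_pos _).trans_le hz'.2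
      rw [Real.le_log_iff_exp_le hpos]
      exact hz'.2
  · have hB := one_le_Bd a b r γ
    rcases le_total γ (C₁ + 2 * C₂ + C₃) with h | h
    · obtain ⟨hf, h1⟩ := hall' a b hq r hr γ hγ h
      exact (ncard_of_all hf h1).trans (hmono a b r γ (by linarith) (by linarith))
    · have hhalf : γ / 2 ≤ γ - 1 := by linarith
      have hγ1 : 0 < γ - 1 := by linarith
      have h2 := Bd_scale (a := a) (b := b) (r := r) (γ := γ) (k := 2) (δ := γ - 1) hγ
        (by norm_num) hhalf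
      rcases le_total (wInf a b) ((γ - 1) / 8) with hw | hw
      · refine ncard_of_finset (by positivity) fun s hs => ?_
        have h1 := hshort a b hq.ne r hr (γ - 1) (by linarith) hw s (fun z hz => (hs hz).1)
          (fun z hz z' hz' => by
            have e1 := (hs hz).2
            have e2 := (hs hz').2
            rw [abs_sub_comm] at e2
            have e3 : |(z.1 : ℝ) - z'.1| ≤ |(z.1 : ℝ) - x₀| + |x₀ - z'.1| := abs_sub_le _ _ _
            have e4 : Real.exp (L a b - (γ - 1)) = Real.exp (L a b - γ) * Real.exp 1 := by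
              rw [← Real.exp_add]; congr 1; ring
            have e5 : (2 : ℝ) ≤ Real.exp 1 := by
              have := Real.add_one_le_exp (1 : ℝ)
              linarith
            have e6 := Real.exp_pos (L a b - γ)
            rw [e4]
            nlinarith)
        calc (s.card : ℝ) ≤ C₂ ^ (1 + r) * (2 ^ (1 + r) * Bd a b r γ) :=
              h1.trans (mul_le_mul_of_nonneg_left h2 (by positivity))
          _ = (2 * C₂) ^ (1 + r) * Bd a b r γ := by rw [mul_pow]; ring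
          _ ≤ C ^ (1 + r) * Bd a b r γ := hmono a b r γ (by linarith) (by linarith)
      · obtain ⟨hf, h1⟩ := hall a b hq r hr (γ - 1) hγ1 (by linarith)
        refine (ncard_of_all hf h1).trans ?_
        calc C₄ ^ (1 + r) * Bd a b r (γ - 1) ≤ C₄ ^ (1 + r) * (2 ^ (1 + r) * Bd a b r γ) :=
              mul_le_mul_of_nonneg_left h2 (by positivity)
          _ = (2 * C₄) ^ (1 + r) * Bd a b r γ := by rw [mul_pow]; ring
          _ ≤ C ^ (1 + r) * Bd a b r γ := hmono a b r γ (by linarith) (by linarith)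
  · have hB := one_le_Bd a b r (Real.log q)
    have hlq : 0 < Real.log q := Real.log_pos (by exact_mod_cast hq1)
    rcases le_total (Real.log q) (C₁ + 2 * C₂ + C₃) with h | h
    · obtain ⟨hf, h1⟩ := hall' a b hq r hr (Real.log q) hlq h
      exact (ncard_of_all hf h1).trans (hmono a b r _ (by linarith) (by linarith))
    · refine ncard_of_finset (by positivity) fun s hs => ?_
      refine (hcong a b hq.ne r hr q (by omega) hcop (by linarith) s (fun z hz => (hs hz).1)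
        (fun z hz z' hz' => ?_)).trans (hmono a b r _ (by linarith) (by linarith))
      have e1 := (hs hz).2
      have e2 := (hs hz').2
      refine ⟨?_, ?_⟩
      · have := dvd_sub e1.1 e2.1
        have e : z.1 - u.1 - (z'.1 - u.1) = z.1 - z'.1 := by ring
        rwa [e] at this
      · have := dvd_sub e1.2 e2.2
        have e : z.2 - u.2 - (z'.2 - u.2) = z.2 - z'.2 := by ring
        rwa [e] at this

end Pool.Agent.H24.LW
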