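import Pool.Agent.H24.LW.Cover
import Pool.Agent.H24.LW.Clus
import Pool.Agent.H24.LR.Can
import Pool.Agent.H24.LR.Pt

/-!
# Integral points which are pairwise close at infinity or modulo `q`
-/

namespace Pool.Agent.H24.LW

open Pool.Agent.H24.LP Pool.Agent.H24.LQ Pool.Agent.H24.LR Finset

/-- Representatives with distinct abscissas. -/
lemma half_reps {a b : ℤ} (s : Finset (curve a b).Point) : ∃ s₁ : Finset (curve a b).Point,
    s₁ ⊆ s ∧ s.card ≤ 2 * s₁.card ∧
    ∀ P ∈ s₁, ∀ Q ∈ s₁, P ≠ Q → repX P * repZ Q - repX Q * repZ P ≠ 0 := by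
  classical
  let rep : (curve a b).Point → ℤ × ℤ := fun P => (repX P, repZ P)
  have hrep : ∀ P Q : (curve a b).Point, rep P = rep Q → P = Q ∨ P = -Q := fun P Q h =>
    eq_or_neg (Prod.mk.inj h).1 (Prod.mk.inj h).2
  let sec : ℤ × ℤ → (curve a b).Point := fun u =>
    if h : ∃ P ∈ s, rep P = u then h.choose else 0
  have hsec : ∀ u ∈ s.image rep, sec u ∈ s ∧ rep (sec u) = u := by
    intro u hu
    obtain ⟨P, hP, hPu⟩ := Finset.mem_image.mp hu
    have hex : ∃ P ∈ s, rep P = u := ⟨P, hP, hPu⟩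
    have : sec u = hex.choose := by simp only [sec]; rw [dif_pos hex]
    rw [this]
    exact hex.choose_spec
  refine ⟨(s.image rep).image sec, ?_, ?_, ?_⟩
  · intro P hP
    obtain ⟨u, hu, rfl⟩ := Finset.mem_image.mp hP
    exact (hsec u hu).1
  · have hcard₁ : ((s.image rep).image sec).card = (s.image rep).card := by
      refine Finset.card_image_of_injOn fun u hu u' hu' h => ?_
      have h1 := (hsec u hu).2
      have h2 := (hsec u' hu').2
      have h3 : sec u = sec u' := h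
      rw [← h1, ← h2, h3]
    rw [hcard₁]
    refine Finset.card_le_mul_card_image s 2 fun u hu => ?_
    have h1 : (s.filter fun P => rep P = u) ⊆ {sec u, -sec u} := by
      intro P hP
      rw [Finset.mem_filter] at hP
      have h2 : rep P = rep (sec u) := hP.2.trans (hsec u hu).2.symm
      rcases hrep P (sec u) h2 with h | h <;> simp [h]
    exact (Finset.card_le_card h1).trans Finset.card_le_two
  · intro P hP Q hQ hne h
    apply hne
    obtain ⟨u, hu, rfl⟩ := Finset.mem_image.mp hP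
    obtain ⟨u', hu', rfl⟩ := Finset.mem_image.mp hQ
    have h1 := rep_eq h
    have h2 : rep (sec u) = rep (sec u') := Prod.ext h1.1 h1.2
    rw [(hsec u hu).2, (hsec u' hu').2] at h2
    rw [h2]

/-- The count for pairwise close integral points. -/
theorem region : ∃ C : ℝ, 1 ≤ C ∧ ∀ (a b : ℤ) (hD : D a b ≠ 0) (r : ℕ),
    Module.rank ℤ (curve a b).Point ≤ r → ∀ (γ : ℝ) (q : ℕ), 0 ≤ γ → 0 < q →
    Nat.Coprime q (6 * D a b).natAbs → C ≤ γ + Real.log q →
    ∀ S : Finset (ℤ × ℤ), (∀ z ∈ S, z ∈ integralPoints a b ∧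
      |(z.1 : ℝ)| ≤ Real.exp (100 * L a b)) →
    (∀ z ∈ S, ∀ z' ∈ S, z ≠ z' → (q : ℤ) ∣ repZ (toPt hD z - toPt hD z') ∧
      (γ = 0 ∨ Real.exp (L a b + γ) * |(repZ (toPt hD z - toPt hD z') : ℝ)| ≤
        |(repX (toPt hD z - toPt hD z') : ℝ)|)) →
    (S.card : ℝ) ≤ C ^ (1 + r) * (max 1 (L a b / (γ + Real.log q))) ^ (1 + (r : ℝ) / 2) := by
  classical
  obtain ⟨Ch, hCh, hht⟩ := exists_height
  obtain ⟨C₀, hC₀, hclus⟩ := cluster
  set C : ℝ := C₀ * (1 + Ch) + 5000 with hC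
  have hC₀Ch : 0 ≤ C₀ * (1 + Ch) := by positivity
  refine ⟨C, by linarith, fun a b hD r hr γ q hγ hq hcop hΓ S hS hST => ?_⟩
  obtain ⟨g, g1, g2, g3⟩ := hht a b hD
  have hg : IsHt Ch g := ⟨g1, g2, g3⟩
  have hquad := can_quad hD g1 g2
  have hfin := fun R => can_finite (a := a) (b := b) g2 R
  have hL := L_pos a b
  set Γ : ℝ := γ + Real.log q with hΓdef
  have hΓ0 : 0 < Γ := by linarith
  set m : ℝ := max 1 (L a b / Γ) with hm
  have hm1 : 1 ≤ m := le_max_left _ _
  have hmL : L a b ≤ m * Γ := by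
    rw [← div_le_iff₀ hΓ0]
    exact le_max_right _ _
  set n : ℕ := ⌈400 * Real.sqrt m⌉₊ with hn
  have hsq : Real.sqrt m ^ 2 = m := Real.sq_sqrt (by linarith)
  have hsq1 : 1 ≤ Real.sqrt m := by
    rw [Real.one_le_sqrt]; exact hm1
  have hn1 : 400 * Real.sqrt m ≤ n := Nat.le_ceil _
  have hn2 : (n : ℝ) ≤ 401 * Real.sqrt m := by
    have := Nat.ceil_lt_add_one (a := 400 * Real.sqrt m) (by positivity)
    linarith
  have hn0 : 0 < n := by
    have : (0 : ℝ) < n := by linarith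
    exact_mod_cast this
  -- the covering
  have hR : ∀ P ∈ S.image (toPt hD), g P ≤ 120 * L a b := by
    intro P hP
    obtain ⟨z, hz, rfl⟩ := Finset.mem_image.mp hP
    have h1 := (abs_le.mp (g2 (toPt hD z))).2
    have h2 : nh (toPt hD z) ≤ 100 * L a b := by
      rw [nh_toPt hD (hS z hz).1]
      have hpos : 0 < max |(z.1 : ℝ)| 1 := lt_of_lt_of_le one_pos (le_max_right _ _)
      rw [Real.log_le_iff_le_exp hpos]
      refine max_le (hS z hz).2 ?_
      rw [Real.one_le_exp_iff]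
      positivity
    linarith
  obtain ⟨Z, hZS, hZc, hZ⟩ := cover hquad hfin r hr (R := 120 * L a b) (by positivity) n hn0
    (S.image (toPt hD)) hR
  have hrad : 80 * (120 * L a b) / (n : ℝ) ^ 2 ≤ Γ / 16 := by
    have hnn : 160000 * m ≤ (n : ℝ) ^ 2 := by
      calc 160000 * m = (400 * Real.sqrt m) ^ 2 := by rw [mul_pow, hsq]; norm_num
        _ ≤ (n : ℝ) ^ 2 := by gcongr
    rw [div_le_iff₀ (by positivity)]
    have h1 : Γ / 16 * (160000 * m) ≤ Γ / 16 * (n : ℝ) ^ 2 := by gcongr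
    nlinarith
  -- a cluster
  have hcl : ∀ c ∈ Z, ((S.filter fun z => g (toPt hD z - c) ≤ Γ / 16).card : ℝ) ≤ 11 * m := by
    intro c hc
    obtain ⟨z₀, hz₀, rfl⟩ := Finset.mem_image.mp (hZS hc)
    set F := S.filter fun z => g (toPt hD z - toPt hD z₀) ≤ Γ / 16 with hF
    set s : Finset (curve a b).Point := (F.erase z₀).image fun z => toPt hD z - toPt hD z₀ with hs
    have hsF : (F.erase z₀).card = s.card := by
      symm
      refine Finset.card_image_of_injOn fun z hz z' hz' h => ?_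
      have hz1 := (Finset.mem_filter.mp (Finset.mem_of_mem_erase hz)).1
      have hz2 := (Finset.mem_filter.mp (Finset.mem_of_mem_erase hz')).1
      exact toPt_injOn hD (hS z hz1).1 (hS z' hz2).1 (sub_left_injective h)
    obtain ⟨s₁, hs₁, hs₁c, hs₁W⟩ := half_reps s
    have hprop : ∀ P ∈ s₁, g P ≤ Γ / 16 ∧ (q : ℤ) ∣ repZ P ∧
        (γ = 0 ∨ Real.exp (L a b + γ) * |(repZ P : ℝ)| ≤ |(repX P : ℝ)|) := by
      intro P hP
      obtain ⟨z, hz, rfl⟩ := Finset.mem_image.mp (hs₁ hP)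
      have hz' := Finset.mem_erase.mp hz
      have hzF := Finset.mem_filter.mp hz'.2
      obtain ⟨h1, h2⟩ := hST z hzF.1 z₀ hz₀ hz'.1
      exact ⟨hzF.2, h1, h2⟩
    have h1 := hclus Ch hCh a b hD g hg γ q hγ hq hcop (by linarith) s₁
      (fun P hP => (hprop P hP).1) (fun P hP => (hprop P hP).2.1) (fun P hP => (hprop P hP).2.2)
      hs₁W
    have h2 : 4 * L a b / Γ ≤ 4 * m := by
      rw [div_le_iff₀ hΓ0]; linarith
    have h3 : (F.card : ℝ) ≤ 1 + (F.erase z₀).card := by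
      have h31 : F.card ≤ (F.erase z₀).card + 1 := by
        have := Finset.pred_card_le_card_erase (s := F) (a := z₀)
        omega
      have : (F.card : ℝ) ≤ (F.erase z₀).card + 1 := by exact_mod_cast h31
      linarith
    have h4 : ((F.erase z₀).card : ℝ) ≤ 2 * s₁.card := by
      rw [hsF]; exact_mod_cast hs₁c
    linarith
  -- the total
  have htot : (S.card : ℝ) ≤ Z.card * (11 * m) := by
    have hsub : S ⊆ Z.biUnion fun c => S.filter fun z => g (toPt hD z - c) ≤ Γ / 16 := by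
      intro z hz
      obtain ⟨c, hc, hcz⟩ := hZ (toPt hD z) (Finset.mem_image_of_mem _ hz)
      rw [Finset.mem_biUnion]
      exact ⟨c, hc, Finset.mem_filter.mpr ⟨hz, hcz.trans hrad⟩⟩
    have h1 : S.card ≤ ∑ c ∈ Z, (S.filter fun z => g (toPt hD z - c) ≤ Γ / 16).card :=
      (Finset.card_le_card hsub).trans Finset.card_biUnion_le
    have h2 : (S.card : ℝ) ≤ ∑ c ∈ Z, ((S.filter fun z => g (toPt hD z - c) ≤ Γ / 16).card : ℝ) := by
      exact_mod_cast h1
    refine h2.trans ((Finset.sum_le_sum hcl).trans ?_)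
    rw [Finset.sum_const, nsmul_eq_mul]
  have hZc' : (Z.card : ℝ) ≤ (401 : ℝ) ^ r * m ^ ((r : ℝ) / 2) := by
    have h1 : (Z.card : ℝ) ≤ (n : ℝ) ^ r := by exact_mod_cast hZc
    refine h1.trans ?_
    calc (n : ℝ) ^ r ≤ (401 * Real.sqrt m) ^ r := by gcongr
      _ = 401 ^ r * (Real.sqrt m) ^ r := mul_pow _ _ _
      _ = 401 ^ r * m ^ ((r : ℝ) / 2) := by
          congr 1
          rw [Real.sqrt_eq_rpow, ← Real.rpow_natCast, ← Real.rpow_mul (by linarith)]
          congr 1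
          ring
  have hC5 : 5000 ≤ C := by rw [hC]; linarith
  calc (S.card : ℝ) ≤ Z.card * (11 * m) := htot
    _ ≤ (401 ^ r * m ^ ((r : ℝ) / 2)) * (11 * m) := by gcongr
    _ = (401 ^ r * 11) * (m ^ (1 : ℝ) * m ^ ((r : ℝ) / 2)) := by rw [Real.rpow_one]; ring
    _ = (401 ^ r * 11) * m ^ (1 + (r : ℝ) / 2) := by
        rw [← Real.rpow_add (by linarith)]
    _ ≤ C ^ (1 + r) * m ^ (1 + (r : ℝ) / 2) := by
        have h1 : (401 : ℝ) ^ r * 11 ≤ C ^ r * C := by
          gcongr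
          · linarith
          · linarith
        rw [add_comm 1 r, pow_succ]
        gcongr

end Pool.Agent.H24.LW
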